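import Mathlib
import Pool.Agent.Helper325.BorsukUlam

set_option autoImplicit false

namespace Pool.Agent.Helper672.Lv.J27090

theorem no_odd_frames_shear {n : ℕ} (A B : Matrix (Fin n ⊕ Fin n) (Fin n) ℂ) :
    (Matrix.fromCols A B).det = (-1) ^ n * (Matrix.fromCols B A).det := by
  have d1 : (Matrix.fromBlocks (1 : Matrix (Fin n) (Fin n) ℂ) 0 1 (1 : Matrix (Fin n) (Fin n) ℂ)).det = 1 := by
    rw [Matrix.det_fromBlocks_zero₁₂]; simp
  have d2 : (Matrix.fromBlocks (1 : Matrix (Fin n) (Fin n) ℂ) (-1) 0 (1 : Matrix (Fin n) (Fin n) ℂ)).det = 1 := by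
    rw [Matrix.det_fromBlocks_zero₂₁]; simp
  have d3 : (Matrix.fromBlocks (1 : Matrix (Fin n) (Fin n) ℂ) 0 0 (-1 : Matrix (Fin n) (Fin n) ℂ)).det = (-1) ^ n := by
    rw [Matrix.det_fromBlocks_zero₁₂, Matrix.det_neg]; simp
  have h1 : Matrix.fromCols A B * Matrix.fromBlocks 1 0 1 1 = Matrix.fromCols (A + B) B := by
    rw [Matrix.fromCols_mul_fromBlocks]; simp
  have h2 : Matrix.fromCols (A + B) B * Matrix.fromBlocks 1 (-1) 0 1 = Matrix.fromCols (A + B) (-A) := by
    rw [Matrix.fromCols_mul_fromBlocks]; simp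
  have h3 : Matrix.fromCols (A + B) (-A) * Matrix.fromBlocks 1 0 1 1 = Matrix.fromCols B (-A) := by
    rw [Matrix.fromCols_mul_fromBlocks]; simp
  have h4 : Matrix.fromCols B A * Matrix.fromBlocks 1 0 0 (-1) = Matrix.fromCols B (-A) := by
    rw [Matrix.fromCols_mul_fromBlocks]; simp
  have e1 := congrArg Matrix.det h1
  have e2 := congrArg Matrix.det h2
  have e3 := congrArg Matrix.det h3
  have e4 := congrArg Matrix.det h4
  rw [Matrix.det_mul, d1, mul_one] at e1
  rw [Matrix.det_mul, d2, mul_one] at e2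
  rw [Matrix.det_mul, d1, mul_one] at e3
  rw [Matrix.det_mul, d3] at e4
  rw [e1, e2, e3, ← e4, mul_comm]

theorem no_odd_frames_bu (F : EuclideanSpace ℝ (Fin 3) → ℂ) (hF : ContinuousOn F {x | ‖x‖ = 1})
    (hodd : ∀ x, ‖x‖ = 1 → F (-x) = - F x) (hne : ∀ x, ‖x‖ = 1 → F x ≠ 0) : False := by
  set G : EuclideanSpace ℝ (Fin 3) → ℂ := fun x => (‖x‖ : ℂ) * F (‖x‖⁻¹ • x) with hG
  have hunit : ∀ x : EuclideanSpace ℝ (Fin 3), x ≠ 0 → ‖‖x‖⁻¹ • x‖ = 1 := by
    intro x hx
    rw [norm_smul, norm_inv, norm_norm]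
    exact inv_mul_cancel₀ (norm_ne_zero_iff.2 hx)
  have hGc : Continuous G := by
    rw [continuous_iff_continuousAt]
    intro x
    by_cases hx : x = 0
    · subst hx
      obtain ⟨C, hC⟩ := (isCompact_sphere (0 : EuclideanSpace ℝ (Fin 3)) 1).exists_bound_of_continuousOn
        (f := F) (by
          refine hF.mono ?_
          intro y hy
          simpa using hy)
      have hG0 : G 0 = 0 := by simp [hG]
      rw [ContinuousAt, hG0]
      refine squeeze_zero_norm (a := fun y : EuclideanSpace ℝ (Fin 3) => ‖y‖ * C) ?_ ?_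
      · intro y
        by_cases hy : y = 0
        · subst hy; simp [hG]
        · simp only [hG, norm_mul, Complex.norm_real, norm_norm]
          exact mul_le_mul_of_nonneg_left (hC _ (by simpa using hunit y hy)) (norm_nonneg _)
      · have h0 : Filter.Tendsto (fun y : EuclideanSpace ℝ (Fin 3) => ‖y‖ * C) (nhds 0)
            (nhds (‖(0 : EuclideanSpace ℝ (Fin 3))‖ * C)) :=
          (continuous_norm.mul continuous_const).tendsto 0
        simpa using h0
    · have h1 : ContinuousOn (fun y : EuclideanSpace ℝ (Fin 3) => ‖y‖⁻¹ • y) {y | y ≠ 0} := by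
        refine ContinuousOn.smul (ContinuousOn.inv₀ continuous_norm.continuousOn ?_) continuousOn_id
        intro y hy
        exact norm_ne_zero_iff.2 hy
      have h2 : ContinuousOn (fun y : EuclideanSpace ℝ (Fin 3) => F (‖y‖⁻¹ • y)) {y | y ≠ 0} :=
        hF.comp h1 (fun y hy => hunit y hy)
      have h3 : ContinuousOn G {y | y ≠ 0} :=
        (Complex.continuous_ofReal.comp continuous_norm).continuousOn.mul h2
      exact h3.continuousAt (isOpen_ne.mem_nhds hx)
  have hGo : ∀ x, G (-x) = - G x := by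
    intro x
    by_cases hx : x = 0
    · subst hx; simp [hG]
    · simp only [hG, norm_neg, smul_neg]
      rw [hodd _ (hunit x hx)]; ring
  have hGn : ∀ x, x ≠ 0 → G x ≠ 0 := by
    intro x hx
    simp only [hG]
    refine mul_ne_zero ?_ (hne _ (hunit x hx))
    exact_mod_cast norm_ne_zero_iff.2 hx
  set T : (Fin 3 → ℝ) → EuclideanSpace ℝ (Fin 3) := fun v => WithLp.toLp 2 v with hT
  have hTc : Continuous T := PiLp.continuous_toLp 2 _
  obtain ⟨x, hx, hfx⟩ := Pool.Agent.Helper325.BorsukUlam.borsuk_ulam 2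
    (fun v => ![(G (T v)).re, (G (T v)).im])
    (by
      refine continuous_pi ?_
      intro i
      fin_cases i
      · exact Complex.continuous_re.comp (hGc.comp hTc)
      · exact Complex.continuous_im.comp (hGc.comp hTc))
    (by
      intro v
      have : T (-v) = - T v := by simp [hT]
      funext i
      fin_cases i
      · simp [this, hGo]
      · simp [this, hGo])
  have hx0 : x ≠ 0 := by
    rintro rfl
    have : (∑ i : Fin 3, |(0 : Fin 3 → ℝ) i|) = 1 := hx
    simp at this
  have hTx : T x ≠ 0 := by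
    intro h
    apply hx0
    have := congrArg (WithLp.ofLp) h
    simpa [hT] using this
  apply hGn _ hTx
  have r0 := congrFun hfx 0
  have r1 := congrFun hfx 1
  simp at r0 r1
  exact Complex.ext r0 r1

theorem no_odd_frames_rank {m : ℕ} (P : Matrix (Fin m) (Fin m) ℂ) (hP : P * P = P) :
    Module.finrank ℂ (LinearMap.ker P.mulVecLin) = (1 - P).rank := by
  rw [Matrix.rank]
  have : LinearMap.ker P.mulVecLin = LinearMap.range (1 - P).mulVecLin := by
    ext v
    rw [LinearMap.mem_ker, LinearMap.mem_range, Matrix.mulVecLin_apply]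
    constructor
    · intro h
      refine ⟨v, ?_⟩
      rw [Matrix.mulVecLin_apply, Matrix.sub_mulVec, h]; simp
    · rintro ⟨w, rfl⟩
      rw [Matrix.mulVecLin_apply, Matrix.mulVec_mulVec, Matrix.mul_sub, hP]; simp
  rw [this]

/-- frames of complementary subspaces of odd dimension `n` in dimension `2n` over the 2-sphere
cannot be exchanged by the antipodal map. -/
theorem no_odd_frames {n : ℕ} (hn : Odd n)
    (P : EuclideanSpace ℝ (Fin 3) → Matrix (Fin (2 * n)) (Fin (2 * n)) ℂ)
    (hodd : ∀ x, ‖x‖ = 1 → P (-x) = 1 - P x) (P₀ : Matrix (Fin (2 * n)) (Fin (2 * n)) ℂ)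
    (hP₀ : P₀ * P₀ = P₀)
    (g : EuclideanSpace ℝ (Fin 3) → Matrix (Fin (2 * n)) (Fin (2 * n)) ℂ)
    (hg : ContinuousOn g {x | ‖x‖ = 1}) (hdet : ∀ x, ‖x‖ = 1 → (g x).det ≠ 0)
    (hgP : ∀ x, ‖x‖ = 1 → g x * P₀ = P x * g x) : False := by
  classical
  have hinv : ∀ x, ‖x‖ = 1 → IsUnit (g x).det := fun x hx => isUnit_iff_ne_zero.2 (hdet x hx)
  have hPx : ∀ x, ‖x‖ = 1 → P x = g x * P₀ * (g x)⁻¹ := by
    intro x hx
    rw [hgP x hx, Matrix.mul_assoc, Matrix.mul_nonsing_inv _ (hinv x hx), Matrix.mul_one]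
  have hPid : ∀ x, ‖x‖ = 1 → P x * P x = P x := by
    intro x hx
    rw [hPx x hx]
    calc g x * P₀ * (g x)⁻¹ * (g x * P₀ * (g x)⁻¹) = g x * P₀ * ((g x)⁻¹ * g x) * P₀ * (g x)⁻¹ := by
          simp only [Matrix.mul_assoc]
      _ = g x * (P₀ * P₀) * (g x)⁻¹ := by
          rw [Matrix.nonsing_inv_mul _ (hinv x hx)]; simp only [Matrix.mul_assoc, Matrix.one_mul]
      _ = _ := by rw [hP₀]
  have hrank : ∀ x, ‖x‖ = 1 → (P x).rank = P₀.rank := by
    intro x hx
    rw [hPx x hx, Matrix.rank_mul_eq_left_of_isUnit_det _ _ (by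
      rw [Matrix.det_nonsing_inv]; exact (hinv x hx).ringInverse), 
      Matrix.rank_mul_eq_right_of_isUnit_det _ _ (hinv x hx)]
  -- a unit vector
  obtain ⟨x₁, hx₁⟩ : ∃ x : EuclideanSpace ℝ (Fin 3), ‖x‖ = 1 :=
    ⟨EuclideanSpace.single 0 1, by simp⟩
  have hr : P₀.rank = n := by
    have h1 := no_odd_frames_rank (P x₁) (hPid x₁ hx₁)
    rw [← hodd x₁ hx₁, hrank (-x₁) (by rw [norm_neg]; exact hx₁)] at h1
    have h2 := LinearMap.finrank_range_add_finrank_ker (P x₁).mulVecLin
    have h3 : Module.finrank ℂ (LinearMap.range (P x₁).mulVecLin) = P₀.rank := hrank x₁ hx₁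
    rw [h3, h1] at h2
    simp at h2
    omega
  have hker : Module.finrank ℂ (LinearMap.ker P₀.mulVecLin) = n := by
    have h2 := LinearMap.finrank_range_add_finrank_ker P₀.mulVecLin
    have h3 : Module.finrank ℂ (LinearMap.range P₀.mulVecLin) = n := hr
    rw [h3] at h2
    simp at h2
    omega
  set b := Module.finBasisOfFinrankEq ℂ (LinearMap.ker P₀.mulVecLin) hker with hb
  set Φ : Matrix (Fin (2 * n)) (Fin n) ℂ := fun i j => ((b j : LinearMap.ker P₀.mulVecLin) : Fin (2 * n) → ℂ) i with hΦ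
  have hPΦ : P₀ * Φ = 0 := by
    ext i j
    have h1 : P₀.mulVec (b j : Fin (2 * n) → ℂ) = 0 := (b j).2
    have h2 := congrFun h1 i
    simpa [Matrix.mul_apply, Matrix.mulVec, dotProduct, hΦ] using h2
  have hΦinj : ∀ a : Fin n → ℂ, Φ.mulVec a = 0 → a = 0 := by
    intro a ha
    have h1 : ∑ j, a j • b j = 0 := by
      apply Subtype.ext
      funext i
      have h2 := congrFun ha i
      simp only [Matrix.mulVec, dotProduct, hΦ] at h2
      rw [Submodule.coe_sum, Finset.sum_apply]
      simp only [Submodule.coe_smul, Pi.smul_apply, smul_eq_mul, Submodule.coe_zero, Pi.zero_apply]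
      simp only [Pi.zero_apply] at h2
      rw [← h2]
      refine Finset.sum_congr rfl (fun j _ => ?_)
      ring
    funext j
    exact Fintype.linearIndependent_iff.1 b.linearIndependent a h1 j
  set φ : EuclideanSpace ℝ (Fin 3) → Matrix (Fin (2 * n)) (Fin n) ℂ := fun x => g x * Φ with hφ
  have hPφ : ∀ x, ‖x‖ = 1 → P x * φ x = 0 := by
    intro x hx
    simp only [hφ]
    rw [← Matrix.mul_assoc, ← hgP x hx, Matrix.mul_assoc, hPΦ, Matrix.mul_zero]
  have hφinj : ∀ x, ‖x‖ = 1 → ∀ a : Fin n → ℂ, (φ x).mulVec a = 0 → a = 0 := by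
    intro x hx a ha
    apply hΦinj
    simp only [hφ] at ha
    rw [← Matrix.mulVec_mulVec] at ha
    have h1 := congrArg (fun v => (g x)⁻¹.mulVec v) ha
    simp only [Matrix.mulVec_mulVec, Matrix.mulVec_zero] at h1
    rwa [← Matrix.mul_assoc, Matrix.nonsing_inv_mul _ (hinv x hx), Matrix.one_mul] at h1
  set e : Fin n ⊕ Fin n ≃ Fin (2 * n) := finSumFinEquiv.trans (finCongr (two_mul n).symm) with he
  set A : EuclideanSpace ℝ (Fin 3) → Matrix (Fin n ⊕ Fin n) (Fin n) ℂ :=
    fun x => (φ x).submatrix e id with hA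
  have hAc : ContinuousOn A {x | ‖x‖ = 1} := by
    have h1 : Continuous (fun M : Matrix (Fin (2 * n)) (Fin (2 * n)) ℂ => (M * Φ).submatrix e id) := by
      fun_prop
    exact h1.comp_continuousOn hg
  have hAc' : ContinuousOn (fun x => A (-x)) {x | ‖x‖ = 1} := by
    refine hAc.comp continuous_neg.continuousOn ?_
    intro x hx
    show ‖-x‖ = 1
    rw [norm_neg]; exact hx
  refine no_odd_frames_bu (fun x => (Matrix.fromCols (A (-x)) (A x)).det) ?_ ?_ ?_
  · have h1 : Continuous (fun p : Matrix (Fin n ⊕ Fin n) (Fin n) ℂ × Matrix (Fin n ⊕ Fin n) (Fin n) ℂ =>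
        (Matrix.fromCols p.1 p.2).det) := by
      refine Continuous.matrix_det ?_
      refine continuous_pi (fun i => continuous_pi (fun j => ?_))
      rcases j with j | j
      · simp only [Matrix.fromCols_apply_inl]
        exact (continuous_apply_apply i j).comp continuous_fst
      · simp only [Matrix.fromCols_apply_inr]
        exact (continuous_apply_apply i j).comp continuous_snd
    exact h1.comp_continuousOn (hAc'.prodMk hAc)
  · intro x hx
    simp only [neg_neg]
    rw [no_odd_frames_shear, hn.neg_one_pow]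
    ring
  · intro x hx hdet0
    obtain ⟨v, hv, hMv⟩ := Matrix.exists_mulVec_eq_zero_iff.2 hdet0
    have hv' : v = Sum.elim (v ∘ Sum.inl) (v ∘ Sum.inr) := by
      funext i; rcases i with i | i <;> rfl
    set a := v ∘ Sum.inl with ha
    set c := v ∘ Sum.inr with hc
    rw [hv', Matrix.fromCols_mulVec] at hMv
    simp only [Sum.elim_comp_inl, Sum.elim_comp_inr] at hMv
    have h1 : (φ (-x)).mulVec a + (φ x).mulVec c = 0 := by
      funext i
      have h2 := congrFun hMv (e.symm i)
      simpa [hA, Matrix.mulVec, dotProduct, Matrix.submatrix] using h2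
    have hnx : ‖-x‖ = 1 := by rw [norm_neg]; exact hx
    have h3 : P x * φ (-x) = φ (-x) := by
      have h4 : P x = 1 - P (-x) := by rw [hodd x hx]; simp
      rw [h4, Matrix.sub_mul, hPφ (-x) hnx]; simp
    have h5 := congrArg (fun u => (P x).mulVec u) h1
    simp only [Matrix.mulVec_add, Matrix.mulVec_mulVec, Matrix.mulVec_zero] at h5
    rw [h3, hPφ x hx, Matrix.zero_mulVec, add_zero] at h5
    have h6 : a = 0 := hφinj (-x) hnx a h5
    rw [h6, Matrix.mulVec_zero, zero_add] at h1
    have h7 : c = 0 := hφinj x hx c h1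
    apply hv
    rw [hv', h6, h7]
    funext i; rcases i with i | i <;> rfl

end Pool.Agent.Helper672.Lv.J27090
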