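import Pool.Agent.Helper775.Tight.SpTop
import Pool.Agent.Helper775.Tight.SpRank

/-! Basic objects: the Veronese model of real projective space. -/

set_option autoImplicit false

namespace Pool.Agent.Helper672.Lv

open Set Topology Pool.Agent.Helper775.Tight Pool.Agent.Helper775.Tight.SoftCx

/-- Euclidean space. -/
abbrev E (M : ℕ) := EuclideanSpace ℝ (Fin M)

/-- square matrices. -/
abbrev W (M : ℕ) := Fin M → Fin M → ℝ

/-- the Veronese map. -/
def v (M : ℕ) (x : E M) : W M := fun i j => x i * x j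

/-- projective space of the first `k` coordinates. -/
def PP (M k : ℕ) : Set (W M) := v M '' Sp M k

/-- the part of the projective space near the last point. -/
def PA (M k : ℕ) (hk : k < M) : Set (W M) := {P | P ∈ PP M (k + 1) ∧ 1 / 2 ≤ P ⟨k, hk⟩ ⟨k, hk⟩}

/-- the part of the projective space near the hyperplane. -/
def PB (M k : ℕ) (hk : k < M) : Set (W M) := {P | P ∈ PP M (k + 1) ∧ P ⟨k, hk⟩ ⟨k, hk⟩ ≤ 1 / 2}

/-- the part of the sphere where a diagonal form is nonnegative. -/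
def DL (M : ℕ) (lam : Fin M → ℝ) : Set (E M) := {z | z ∈ Sp M M ∧ 0 ≤ ∑ i, lam i * (z i) ^ 2}

/-- pairs (covector, line) with nonnegative value. -/
def BB {m M : ℕ} (Q : W M →ₗ[ℝ] E (m + 1)) : Set (E (m + 1) × W M) :=
  {p | p.1 ∈ Sp (m + 1) (m + 1) ∧ p.2 ∈ PP M M ∧ 0 ≤ inner ℝ p.1 (Q p.2)}

/-- pairs (covector, unit vector) with nonnegative value. -/
def BT {m M : ℕ} (Q : W M →ₗ[ℝ] E (m + 1)) : Set (E (m + 1) × E M) :=
  {p | p.1 ∈ Sp (m + 1) (m + 1) ∧ p.2 ∈ Sp M M ∧ 0 ≤ inner ℝ p.1 (Q (v M p.2))}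

theorem v_continuous (M : ℕ) : Continuous (v M) := by
  unfold v
  fun_prop

theorem v_neg (M : ℕ) (x : E M) : v M (-x) = v M x := by
  funext i j
  simp [v]

theorem PP_compact (M k : ℕ) : IsCompact (PP M k) := (Sp_compact M k).image (v_continuous M)

end Pool.Agent.Helper672.Lv
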