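import Mathlib
import Pool.Agent.Helper672.Lv.Base

set_option autoImplicit false

namespace Pool.Agent.Helper672.Lv.J27264


/-- a quadratic form is diagonal in an orthonormal basis, nonnegative entries first. -/
theorem exists_spec {M : ℕ} (f : QuadraticForm ℝ (E M)) :
    ∃ (O : E M ≃ₗᵢ[ℝ] E M) (N : ℕ) (lam : Fin M → ℝ), N ≤ M ∧
      (∀ i : Fin M, i.val < N → 0 ≤ lam i) ∧ (∀ i : Fin M, N ≤ i.val → lam i < 0) ∧
      ∀ z : E M, f (O z) = ∑ i, lam i * (z i) ^ 2 := by
  classical
  obtain ⟨B, hB1, hB2⟩ : ∃ B : E M →ₗ[ℝ] E M →ₗ[ℝ] ℝ, (∀ x y, B x y = B y x) ∧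
      ∀ x, B x x = f x := by
    refine ⟨QuadraticMap.associated f, ?_, fun x => QuadraticMap.associated_eq_self_apply ℝ f x⟩
    intro x y
    rw [QuadraticMap.associated_apply, QuadraticMap.associated_apply, add_comm x y]
    congr 1
    ring
  obtain ⟨T, hT⟩ : ∃ T : E M →ₗ[ℝ] E M, ∀ x y, inner ℝ (T x) y = B x y := by
    refine ⟨∑ i, (B.flip (EuclideanSpace.basisFun (Fin M) ℝ i)).smulRight
      (EuclideanSpace.basisFun (Fin M) ℝ i), ?_⟩
    intro x y
    rw [LinearMap.sum_apply, sum_inner]
    have h1 : ∀ i, inner ℝ (((B.flip (EuclideanSpace.basisFun (Fin M) ℝ i)).smulRight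
        (EuclideanSpace.basisFun (Fin M) ℝ i)) x) y =
        y i * B x (EuclideanSpace.basisFun (Fin M) ℝ i) := by
      intro i
      rw [LinearMap.smulRight_apply, LinearMap.flip_apply, real_inner_smul_left,
        EuclideanSpace.basisFun_apply, EuclideanSpace.inner_single_left]
      simp
      ring
    simp only [h1]
    have h2 : y = ∑ i, y i • EuclideanSpace.basisFun (Fin M) ℝ i := by
      have := (EuclideanSpace.basisFun (Fin M) ℝ).sum_repr y
      simpa using this.symm
    conv_rhs => rw [h2]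
    rw [map_sum]
    apply Finset.sum_congr rfl
    intro i _
    rw [map_smul, smul_eq_mul]
  have hsymm : T.IsSymmetric := by
    intro x y
    rw [hT x y, real_inner_comm, hT y x, hB1]
  have hn : Module.finrank ℝ (E M) = M := finrank_euclideanSpace_fin
  refine ⟨(hsymm.eigenvectorBasis hn).repr.symm,
    (Finset.univ.filter (fun i => 0 ≤ hsymm.eigenvalues hn i)).card, hsymm.eigenvalues hn,
    ?_, ?_, ?_, ?_⟩
  · refine (Finset.card_filter_le _ _).trans ?_
    simp
  · intro i hi
    exact (Tuple.lt_card_ge_iff_apply_ge_of_antitone (hsymm.eigenvalues_antitone hn)).mp hi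
  · intro i hi
    by_contra hcon
    push Not at hcon
    have h1 := (Tuple.lt_card_ge_iff_apply_ge_of_antitone (a := (0 : ℝ)) (j := i)
      (hsymm.eigenvalues_antitone hn)).mpr hcon
    omega
  · intro z
    obtain ⟨v, hv⟩ : ∃ v, v = (hsymm.eigenvectorBasis hn).repr.symm z := ⟨_, rfl⟩
    rw [← hv]
    have hz : (hsymm.eigenvectorBasis hn).repr v = z := by
      rw [hv, LinearIsometryEquiv.apply_symm_apply]
    rw [← hB2 v, ← hT v v, ← (hsymm.eigenvectorBasis hn).repr.inner_map_map (T v) v, hz,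
      PiLp.inner_apply]
    apply Finset.sum_congr rfl
    intro i _
    rw [hsymm.eigenvectorBasis_apply_self_apply hn v i, hz]
    simp
    ring

end Pool.Agent.Helper672.Lv.J27264
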