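import Mathlib
import Pool.Agent.Helper672.Lv.Base

set_option autoImplicit false

namespace Pool.Agent.Helper672.Lv.J27265


/-- the subspace of vectors whose first `N` coordinates vanish -/
def ibU (M N : ℕ) : Submodule ℝ (E M) where
  carrier := {z | ∀ i : Fin M, i.val < N → z i = 0}
  add_mem' := by
    intro a b ha hb i hi
    show a i + b i = 0
    rw [ha i hi, hb i hi, add_zero]
  zero_mem' := by
    intro i _
    rfl
  smul_mem' := by
    intro c a ha i hi
    show c * a i = 0
    rw [ha i hi, mul_zero]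

theorem ibU_finrank {M N : ℕ} (hN : N ≤ M) : M ≤ Module.finrank ℝ (ibU M N) + N := by
  let L : E M →ₗ[ℝ] (Fin N → ℝ) :=
    { toFun := fun z j => z (Fin.castLE hN j)
      map_add' := fun a b => rfl
      map_smul' := fun c a => rfl }
  have h1 := LinearMap.finrank_range_add_finrank_ker L
  have h2 : LinearMap.ker L ≤ ibU M N := by
    intro z hz i hi
    exact congrFun (LinearMap.mem_ker.1 hz) ⟨i.1, hi⟩
  have h3 := Submodule.finrank_mono h2
  have h4 : Module.finrank ℝ (LinearMap.range L) ≤ N := by
    have := Submodule.finrank_le (LinearMap.range L)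
    rwa [Module.finrank_fin_fun] at this
  rw [finrank_euclideanSpace_fin] at h1
  omega

theorem ib_fr {M N : ℕ} (J : E M →ₗ[ℝ] E M) (hJ : Function.Injective J) :
    Module.finrank ℝ ((ibU M N).map J) = Module.finrank ℝ (ibU M N) :=
  (Submodule.equivMapOfInjective J hJ (ibU M N)).finrank_eq.symm

theorem ib_disj {M N : ℕ} (f : QuadraticForm ℝ (E M)) (J : E M →ₗ[ℝ] E M)
    (hf : ∀ z, f (J z) = - f z)
    (hneg : ∀ z : E M, (∀ i : Fin M, i.val < N → z i = 0) → z ≠ 0 → f z < 0) :
    Disjoint (ibU M N) ((ibU M N).map J) := by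
  rw [Submodule.disjoint_def]
  rintro z hz ⟨w, hw, rfl⟩
  by_contra h
  have hw0 : w ≠ 0 := by
    rintro rfl
    exact h (map_zero J)
  have h1 := hneg _ hz h
  have h2 := hneg w hw hw0
  have h3 := hf w
  linarith

/-- a quadratic form which changes sign under an injective linear map has at least `M / 2`
nonnegative directions. -/
theorem index_bound {M N : ℕ} (hN : N ≤ M) (f : QuadraticForm ℝ (E M)) (J : E M →ₗ[ℝ] E M)
    (hJ : Function.Injective J) (hf : ∀ z, f (J z) = - f z)
    (hneg : ∀ z : E M, (∀ i : Fin M, i.val < N → z i = 0) → z ≠ 0 → f z < 0) :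
    M ≤ 2 * N := by
  have h1 := Submodule.finrank_add_finrank_le_of_disjoint (ib_disj f J hf hneg)
  rw [ib_fr J hJ, finrank_euclideanSpace_fin] at h1
  have h2 := ibU_finrank hN
  omega

/-- one more if there is a vector in the radical. -/
theorem index_bound_radical {M N : ℕ} (hN : N ≤ M) (f : QuadraticForm ℝ (E M))
    (J : E M →ₗ[ℝ] E M) (hJ : Function.Injective J) (hf : ∀ z, f (J z) = - f z)
    (hneg : ∀ z : E M, (∀ i : Fin M, i.val < N → z i = 0) → z ≠ 0 → f z < 0)
    (u : E M) (hu : u ≠ 0) (hker : ∀ z, f (u + z) = f z) :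
    M + 1 ≤ 2 * N := by
  have h0 := index_bound hN f J hJ hf hneg
  by_contra hlt
  have hM : M = 2 * N := by omega
  have h2 := ibU_finrank hN
  have hd := ib_disj f J hf hneg
  have h3 := Submodule.finrank_sup_add_finrank_inf_eq (ibU M N) ((ibU M N).map J)
  rw [hd.eq_bot, finrank_bot, ib_fr J hJ] at h3
  have h4 : ibU M N ⊔ (ibU M N).map J = ⊤ := by
    apply Submodule.eq_top_of_finrank_eq
    have h5 := Submodule.finrank_le (ibU M N ⊔ (ibU M N).map J)
    rw [finrank_euclideanSpace_fin] at h5 ⊢
    omega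
  have hu' : u ∈ ibU M N ⊔ (ibU M N).map J := by
    rw [h4]
    trivial
  obtain ⟨a, ha, c, ⟨b, hb, rfl⟩, hab⟩ := Submodule.mem_sup.1 hu'
  have h5 : f (J b) = f a := by
    have e : J b = u + -a := by
      rw [← hab]
      abel
    rw [e, hker, QuadraticMap.map_neg]
  rw [hf] at h5
  have ha0 : a = 0 := by
    by_contra h
    have h6 := hneg a ha h
    by_cases hb0 : b = 0
    · rw [hb0, QuadraticMap.map_zero] at h5
      linarith
    · have h7 := hneg b hb hb0
      linarith
  have hb0 : b = 0 := by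
    by_contra h
    have h7 := hneg b hb h
    rw [ha0, QuadraticMap.map_zero] at h5
    linarith
  apply hu
  rw [← hab, ha0, hb0, map_zero, add_zero]

end Pool.Agent.Helper672.Lv.J27265
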