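import Mathlib
import Pool.Agent.Helper672.Lv.Base

set_option autoImplicit false

namespace Pool.Agent.Helper672.Lv.J27266


theorem cform_aux {m : ℕ} (q : QuadraticForm ℝ (Fin m → ℂ))
    (hq : ∀ z, q (Complex.I • z) = - q z) :
    ∃ C : (Fin m → ℂ) →ₗ[ℂ] (Fin m → ℂ) →ₗ[ℂ] ℂ,
      ∀ z z', (C z z').re = QuadraticMap.polar q z z' := by
  have hII : ∀ z : Fin m → ℂ, Complex.I • (Complex.I • z) = -z := by
    intro z
    rw [smul_smul, Complex.I_mul_I, neg_one_smul]
  have h1 : ∀ z z', QuadraticMap.polar q (Complex.I • z) (Complex.I • z') =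
      -QuadraticMap.polar q z z' := by
    intro z z'
    unfold QuadraticMap.polar
    rw [← smul_add, hq, hq, hq]
    ring
  have h2 : ∀ z z', QuadraticMap.polar q z (Complex.I • z') =
      QuadraticMap.polar q (Complex.I • z) z' := by
    intro z z'
    have h3 := h1 (Complex.I • z) z'
    rw [hII, QuadraticMap.polar_neg_left] at h3
    linarith
  have hsm : ∀ (c : ℂ) (z : Fin m → ℂ), c • z = c.re • z + c.im • (Complex.I • z) := by
    intro c z
    ext i
    simp only [Pi.smul_apply, Pi.add_apply, smul_eq_mul, Complex.real_smul]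
    conv_lhs => rw [← Complex.re_add_im c]
    ring
  refine ⟨LinearMap.mk₂ ℂ (fun z z' => ((QuadraticMap.polar q z z' : ℝ) : ℂ) -
    Complex.I * ((QuadraticMap.polar q (Complex.I • z) z' : ℝ) : ℂ)) ?_ ?_ ?_ ?_, ?_⟩
  · intro z z' w
    rw [smul_add, QuadraticMap.polar_add_left, QuadraticMap.polar_add_left]
    push_cast
    ring
  · intro c z w
    have e1 : Complex.I • (c • z) = c.re • (Complex.I • z) + c.im • (-z) := by
      rw [smul_comm, hsm c (Complex.I • z), hII]
    rw [e1, hsm c z, QuadraticMap.polar_add_left, QuadraticMap.polar_add_left,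
      QuadraticMap.polar_smul_left, QuadraticMap.polar_smul_left, QuadraticMap.polar_smul_left,
      QuadraticMap.polar_smul_left, QuadraticMap.polar_neg_left]
    apply Complex.ext
    · simp
      try ring
    · simp
      try ring
  · intro z w w'
    rw [QuadraticMap.polar_add_right, QuadraticMap.polar_add_right]
    push_cast
    ring
  · intro c z w
    rw [hsm c w, QuadraticMap.polar_add_right, QuadraticMap.polar_add_right,
      QuadraticMap.polar_smul_right, QuadraticMap.polar_smul_right, QuadraticMap.polar_smul_right,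
      QuadraticMap.polar_smul_right, h2, h1]
    apply Complex.ext
    · simp
      try ring
    · simp
      try ring
  · intro z z'
    simp

/-- a linear combination of the forms has a radical. -/
theorem exists_radical_of {m : ℕ}
    (HS : ∀ S : Fin 5 → Matrix (Fin m) (Fin m) ℂ,
      ∃ w : Fin 5 → ℝ, w ≠ 0 ∧ (∑ i, (w i : ℂ) • S i).det = 0)
    (hm : 4 ≤ m) (q : Fin (m + 1) → QuadraticForm ℝ (Fin m → ℂ))
    (hq : ∀ j z, q j (Complex.I • z) = - q j z) :
    ∃ w : E (m + 1), ‖w‖ = 1 ∧ ∃ u : Fin m → ℂ, u ≠ 0 ∧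
      ∀ z, ∑ j, w j * q j (u + z) = ∑ j, w j * q j z := by
  classical
  choose C hC using fun j => cform_aux (q j) (hq j)
  have h5 : 5 ≤ m + 1 := by omega
  obtain ⟨w, hw, hdet⟩ := HS (fun i => LinearMap.toMatrix₂' ℂ (C (Fin.castLE h5 i)))
  obtain ⟨u, hu, hMu⟩ := Matrix.exists_mulVec_eq_zero_iff.2 hdet
  have hinj : Function.Injective (Fin.castLE h5) := Fin.castLE_injective h5
  -- the vanishing of the combination of the polar forms
  have hB : ∀ z, ∑ i, w i * QuadraticMap.polar (q (Fin.castLE h5 i)) z u = 0 := by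
    intro z
    have h1 : (∑ i, (w i : ℂ) • C (Fin.castLE h5 i)) z u = 0 := by
      have h2 : (∑ i, (w i : ℂ) • C (Fin.castLE h5 i)) =
          Matrix.toLinearMap₂' ℂ (∑ i, (w i : ℂ) • LinearMap.toMatrix₂' ℂ (C (Fin.castLE h5 i))) := by
        rw [map_sum]
        refine Finset.sum_congr rfl fun i _ => ?_
        rw [map_smul, Matrix.toLinearMap₂'_toMatrix']
      rw [h2, Matrix.toLinearMap₂'_apply', hMu, dotProduct_zero]
    have h3 := congrArg Complex.re h1
    simp only [LinearMap.sum_apply, LinearMap.smul_apply, Complex.re_sum, smul_eq_mul,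
      Complex.re_ofReal_mul, hC, Complex.zero_re] at h3
    exact h3
  let w0 : E (m + 1) := WithLp.toLp 2 (Function.extend (Fin.castLE h5) w 0)
  have hw0a : ∀ i, w0 (Fin.castLE h5 i) = w i := fun i => hinj.extend_apply w 0 i
  have hw0b : ∀ j, j ∉ Set.range (Fin.castLE h5) → w0 j = 0 := by
    intro j hj
    exact Function.extend_apply' w (0 : Fin (m + 1) → ℝ) j (fun ⟨i, hi⟩ => hj ⟨i, hi⟩)
  have hw0 : w0 ≠ 0 := by
    intro h
    apply hw
    ext i
    rw [← hw0a i, h]
    rfl
  have hn : ‖w0‖ ≠ 0 := norm_ne_zero_iff.2 hw0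
  have hB0 : ∀ z, ∑ j, w0 j * QuadraticMap.polar (q j) z u = 0 := by
    intro z
    rw [← hB z]
    symm
    apply Fintype.sum_of_injective (Fin.castLE h5) hinj
    · intro j hj
      rw [hw0b j hj, zero_mul]
    · intro i
      rw [hw0a]
  refine ⟨‖w0‖⁻¹ • w0, ?_, u, hu, ?_⟩
  · rw [norm_smul, norm_inv, norm_norm, inv_mul_cancel₀ hn]
  · intro z
    have hexp : ∀ j, q j (u + z) = q j u + q j z + QuadraticMap.polar (q j) z u := by
      intro j
      rw [QuadraticMap.polar_comm]
      unfold QuadraticMap.polar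
      ring
    have hqu : ∀ j, q j u = QuadraticMap.polar (q j) u u / 2 := by
      intro j
      rw [QuadraticMap.polar_self]
      simp
    have e1 : ∑ j, (‖w0‖⁻¹ • w0) j * q j (u + z) - ∑ j, (‖w0‖⁻¹ • w0) j * q j z =
        ‖w0‖⁻¹ * (1 / 2 * ∑ j, w0 j * QuadraticMap.polar (q j) u u +
          ∑ j, w0 j * QuadraticMap.polar (q j) z u) := by
      rw [← Finset.sum_sub_distrib, Finset.mul_sum, ← Finset.sum_add_distrib, Finset.mul_sum]
      refine Finset.sum_congr rfl fun j _ => ?_
      rw [hexp, hqu]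
      simp only [PiLp.smul_apply, smul_eq_mul]
      ring
    rw [hB0, hB0] at e1
    have e2 : ‖w0‖⁻¹ * (1 / 2 * (0:ℝ) + 0) = 0 := by ring
    rw [e2] at e1
    linarith

end Pool.Agent.Helper672.Lv.J27266
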