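import Pool.Agent.Helper672.Lv.N5

set_option autoImplicit false

namespace Pool.Agent.Helper672.Lv

open Matrix

/-- the path from the pole of the 3-sphere to a point of its equator, through unit vectors. -/
noncomputable def arc (t : ℝ) (x : EuclideanSpace ℝ (Fin 3)) : EuclideanSpace ℝ (Fin 4) :=
  WithLp.toLp 2 (Fin.snoc (α := fun _ => ℝ) (fun i => Real.sin (Real.pi / 2 * t) * x i)
    (Real.cos (Real.pi / 2 * t)))

theorem arc_norm (t : ℝ) (x : EuclideanSpace ℝ (Fin 3)) (hx : ‖x‖ = 1) : ‖arc t x‖ = 1 := by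
  have h1 : ‖arc t x‖ ^ 2 = 1 := by
    rw [EuclideanSpace.norm_sq_eq, Fin.sum_univ_castSucc]
    have h2 : ∑ i, ‖x i‖ ^ 2 = 1 := by
      rw [← EuclideanSpace.norm_sq_eq, hx]; norm_num
    simp only [arc, Fin.snoc_castSucc, Fin.snoc_last, norm_mul, mul_pow]
    rw [← Finset.mul_sum, h2]
    simp only [Real.norm_eq_abs, sq_abs, mul_one]
    exact Real.sin_sq_add_cos_sq _
  have h3 := norm_nonneg (arc t x)
  nlinarith

theorem arc_continuous : Continuous fun p : ℝ × EuclideanSpace ℝ (Fin 3) => arc p.1 p.2 := by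
  unfold arc
  refine (PiLp.continuous_toLp 2 _).comp (continuous_pi fun i => ?_)
  refine Fin.lastCases ?_ (fun j => ?_) i
  · simp only [Fin.snoc_last]
    fun_prop
  · simp only [Fin.snoc_castSucc]
    fun_prop

theorem arc_last (t : ℝ) (x : EuclideanSpace ℝ (Fin 3)) :
    arc t x (Fin.last 3) = Real.cos (Real.pi / 2 * t) := by
  change Fin.snoc (α := fun _ => ℝ) (fun i : Fin 3 => Real.sin (Real.pi / 2 * t) * x i)
    (Real.cos (Real.pi / 2 * t)) (Fin.last 3) = _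
  rw [Fin.snoc_last]

theorem arc_cast (t : ℝ) (x : EuclideanSpace ℝ (Fin 3)) (j : Fin 3) :
    arc t x j.castSucc = Real.sin (Real.pi / 2 * t) * x j := by
  change Fin.snoc (α := fun _ => ℝ) (fun i : Fin 3 => Real.sin (Real.pi / 2 * t) * x i)
    (Real.cos (Real.pi / 2 * t)) j.castSucc = _
  rw [Fin.snoc_castSucc]

theorem arc_one_neg (x : EuclideanSpace ℝ (Fin 3)) : arc 1 (-x) = - arc 1 x := by
  ext i
  refine Fin.lastCases ?_ (fun j => ?_) i
  · rw [PiLp.neg_apply, arc_last, arc_last, mul_one, Real.cos_pi_div_two, neg_zero]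
  · rw [PiLp.neg_apply, arc_cast, arc_cast, PiLp.neg_apply, mul_neg]

theorem arc_zero (x y : EuclideanSpace ℝ (Fin 3)) : arc 0 x = arc 0 y := by
  ext i
  refine Fin.lastCases ?_ (fun j => ?_) i
  · rw [arc_last, arc_last]
  · rw [arc_cast, arc_cast, mul_zero, Real.sin_zero, zero_mul, zero_mul]

/-- frames of the spectral subspaces over the equator of the 3-sphere. -/
theorem exists_frames {N : ℕ} (R : EuclideanSpace ℝ (Fin 4) → Matrix (Fin N) (Fin N) ℂ)
    (hRc : Continuous R) (hRneg : ∀ x, R (-x) = - R x)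
    (hno : ∀ x : EuclideanSpace ℝ (Fin 4), ‖x‖ = 1 → ∀ t : ℝ,
      (R x - (t : ℂ) • (1 : Matrix (Fin N) (Fin N) ℂ)).det ≠ 0) :
    ∃ (P : EuclideanSpace ℝ (Fin 3) → Matrix (Fin N) (Fin N) ℂ) (P₀ : Matrix (Fin N) (Fin N) ℂ)
      (g : EuclideanSpace ℝ (Fin 3) → Matrix (Fin N) (Fin N) ℂ),
      (∀ x, ‖x‖ = 1 → P (-x) = 1 - P x) ∧ P₀ * P₀ = P₀ ∧ ContinuousOn g {x | ‖x‖ = 1} ∧
      (∀ x, ‖x‖ = 1 → (g x).det ≠ 0) ∧ (∀ x, ‖x‖ = 1 → g x * P₀ = P x * g x) := by
  have hc4 : CompactSpace (Metric.sphere (0 : EuclideanSpace ℝ (Fin 4)) 1) :=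
    isCompact_iff_compactSpace.1 (isCompact_sphere _ _)
  have hc3 : CompactSpace (Metric.sphere (0 : EuclideanSpace ℝ (Fin 3)) 1) :=
    isCompact_iff_compactSpace.1 (isCompact_sphere _ _)
  obtain ⟨P, hPc, hPid, hPneg⟩ := exists_family_proj
    (fun x : Metric.sphere (0 : EuclideanSpace ℝ (Fin 4)) 1 => R x)
    (hRc.comp continuous_subtype_val)
    (fun x t => hno x (mem_sphere_zero_iff_norm.1 x.2) t)
  obtain ⟨u, hu⟩ : ∃ u : ℝ → Metric.sphere (0 : EuclideanSpace ℝ (Fin 3)) 1 →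
      Metric.sphere (0 : EuclideanSpace ℝ (Fin 4)) 1, ∀ t x, (u t x : EuclideanSpace ℝ (Fin 4)) =
        arc t x :=
    ⟨fun t x => ⟨arc t x, mem_sphere_zero_iff_norm.2
      (arc_norm t x (mem_sphere_zero_iff_norm.1 x.2))⟩, fun _ _ => rfl⟩
  have huc : Continuous fun p : ℝ × Metric.sphere (0 : EuclideanSpace ℝ (Fin 3)) 1 =>
      u p.1 p.2 := by
    rw [continuous_induced_rng]
    have : (Subtype.val ∘ fun p : ℝ × Metric.sphere (0 : EuclideanSpace ℝ (Fin 3)) 1 =>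
        u p.1 p.2) = fun p => arc p.1 p.2 := by
      funext p
      exact hu _ _
    rw [this]
    have h1 : Continuous fun p : ℝ × Metric.sphere (0 : EuclideanSpace ℝ (Fin 3)) 1 =>
        ((p.1, (p.2 : EuclideanSpace ℝ (Fin 3))) : ℝ × EuclideanSpace ℝ (Fin 3)) :=
      continuous_fst.prodMk (continuous_subtype_val.comp continuous_snd)
    have h2 := Continuous.comp (g := fun p : ℝ × EuclideanSpace ℝ (Fin 3) => arc p.1 p.2)
      arc_continuous h1
    simpa only [Function.comp_def] using h2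
  have e0 : (EuclideanSpace.single 0 1 : EuclideanSpace ℝ (Fin 3)) ∈
      Metric.sphere (0 : EuclideanSpace ℝ (Fin 3)) 1 := by
    rw [mem_sphere_zero_iff_norm]; simp
  obtain ⟨x0, hx0⟩ : ∃ x0 : Metric.sphere (0 : EuclideanSpace ℝ (Fin 3)) 1, True := ⟨⟨_, e0⟩, trivial⟩
  have hPu : Continuous fun p : ℝ × Metric.sphere (0 : EuclideanSpace ℝ (Fin 3)) 1 =>
      P (u p.1 p.2) := hPc.comp huc
  have hPi : ∀ t x, P (u t x) * P (u t x) = P (u t x) := fun t x => hPid _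
  have hP0 : ∀ x, P (u 0 x) = P (u 0 x0) := by
    intro x
    have : u 0 x = u 0 x0 := Subtype.ext (by rw [hu, hu]; exact arc_zero _ _)
    rw [this]
  obtain ⟨T, hT⟩ : ∃ T : ℝ → Metric.sphere (0 : EuclideanSpace ℝ (Fin 3)) 1 →
      Matrix (Fin N) (Fin N) ℂ, T = fun t x => P (u t x) := ⟨_, rfl⟩
  have hT1 : Continuous fun p : ℝ × Metric.sphere (0 : EuclideanSpace ℝ (Fin 3)) 1 =>
      T p.1 p.2 := by rw [hT]; exact hPu
  have hT2 : ∀ t x, T t x * T t x = T t x := by rw [hT]; exact hPi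
  have hT3 : ∀ x, T 0 x = P (u 0 x0) := by rw [hT]; exact hP0
  obtain ⟨g, hg1, hg2, hg3⟩ := J27089.exists_transport T hT1 hT2 _ hT3
  rw [hT] at hg3
  classical
  refine ⟨fun x => if h : ‖x‖ = 1 then P (u 1 ⟨x, mem_sphere_zero_iff_norm.2 h⟩) else 0,
    P (u 0 x0), fun x => if h : ‖x‖ = 1 then g ⟨x, mem_sphere_zero_iff_norm.2 h⟩ else 0,
    ?_, hPid _, ?_, ?_, ?_⟩
  · intro x hx
    have hx' : ‖-x‖ = 1 := by rwa [norm_neg]
    beta_reduce
    rw [dif_pos hx', dif_pos hx]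
    apply hPneg
    rw [hu, hu]
    change R (arc 1 (-x)) = - R (arc 1 x)
    rw [arc_one_neg, hRneg]
  · rw [continuousOn_iff_continuous_domRestrict]
    have : Set.domRestrict {x : EuclideanSpace ℝ (Fin 3) | ‖x‖ = 1}
        (fun x => if h : ‖x‖ = 1 then g ⟨x, mem_sphere_zero_iff_norm.2 h⟩ else 0) =
        fun x => g ⟨x.1, mem_sphere_zero_iff_norm.2 x.2⟩ := by
      funext x
      have hx : ‖x.1‖ = 1 := x.2
      simp only [Set.domRestrict_apply, dif_pos hx]
    rw [this]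
    exact hg1.comp (Continuous.subtype_mk continuous_subtype_val _)
  · intro x hx
    simp only [dif_pos hx]
    exact hg2 _
  · intro x hx
    simp only [dif_pos hx]
    exact hg3 _

theorem exists_singular_of {n : ℕ}
    (HN : ∀ (P : EuclideanSpace ℝ (Fin 3) → Matrix (Fin (2 * n)) (Fin (2 * n)) ℂ),
      (∀ x, ‖x‖ = 1 → P (-x) = 1 - P x) → ∀ P₀ : Matrix (Fin (2 * n)) (Fin (2 * n)) ℂ,
      P₀ * P₀ = P₀ → ∀ g : EuclideanSpace ℝ (Fin 3) → Matrix (Fin (2 * n)) (Fin (2 * n)) ℂ,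
      ContinuousOn g {x | ‖x‖ = 1} → (∀ x, ‖x‖ = 1 → (g x).det ≠ 0) →
      (∀ x, ‖x‖ = 1 → g x * P₀ = P x * g x) → False)
    (S : Fin 5 → Matrix (Fin (2 * n)) (Fin (2 * n)) ℂ) :
    ∃ w : Fin 5 → ℝ, w ≠ 0 ∧ (∑ i, (w i : ℂ) • S i).det = 0 := by
  by_contra hcon
  push Not at hcon
  have hS4 : (S 4).det ≠ 0 := by
    have := hcon (Pi.single 4 1) (by
      intro h
      have := congrFun h 4
      simp at this)
    have e : ∑ i, (((Pi.single 4 1 : Fin 5 → ℝ) i : ℝ) : ℂ) • S i = S 4 := by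
      rw [Finset.sum_eq_single 4]
      · simp
      · intro b _ hb
        simp [Pi.single_apply, hb]
      · simp
    rwa [e] at this
  have hunit : IsUnit (S 4).det := isUnit_iff_ne_zero.2 hS4
  set R : EuclideanSpace ℝ (Fin 4) → Matrix (Fin (2 * n)) (Fin (2 * n)) ℂ := fun x =>
    (S 4)⁻¹ * ∑ i : Fin 4, ((x i : ℝ) : ℂ) • S i.castSucc with hR
  have hRc : Continuous R := by
    rw [hR]
    refine continuous_const.mul (continuous_finsetSum _ fun i _ => ?_)
    have : Continuous fun x : EuclideanSpace ℝ (Fin 4) => ((x i : ℝ) : ℂ) := by fun_prop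
    exact this.smul continuous_const
  have hRneg : ∀ x, R (-x) = - R x := by
    intro x
    simp only [hR]
    rw [← mul_neg, ← Finset.sum_neg_distrib]
    congr 1
    refine Finset.sum_congr rfl fun i _ => ?_
    simp
  have hno : ∀ x : EuclideanSpace ℝ (Fin 4), ‖x‖ = 1 → ∀ t : ℝ,
      (R x - (t : ℂ) • (1 : Matrix (Fin (2 * n)) (Fin (2 * n)) ℂ)).det ≠ 0 := by
    intro x hx t h
    have h1 := hcon (Fin.snoc (α := fun _ => ℝ) (fun i => x i) (-t)) (by
      intro h0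
      have h2 : x = 0 := by
        ext i
        have := congrFun h0 i.castSucc
        simpa using this
      rw [h2, norm_zero] at hx
      exact zero_ne_one hx)
    apply h1
    have e : ∑ i, (((Fin.snoc (α := fun _ => ℝ) (fun i => x i) (-t) : Fin 5 → ℝ) i : ℝ) : ℂ) • S i
        = S 4 * (R x - (t : ℂ) • (1 : Matrix (Fin (2 * n)) (Fin (2 * n)) ℂ)) := by
      rw [Fin.sum_univ_castSucc, mul_sub, hR, ← mul_assoc, Matrix.mul_nonsing_inv _ hunit, one_mul]
      simp only [Fin.snoc_castSucc, Fin.snoc_last, Matrix.mul_smul, mul_one]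
      have : (Fin.last 4) = 4 := rfl
      rw [this]
      push_cast
      rw [neg_smul, sub_eq_add_neg]
    rw [e, Matrix.det_mul, h, mul_zero]
  obtain ⟨P, P₀, g, h1, h2, h3, h4, h5⟩ := exists_frames R hRc hRneg hno
  exact HN P h1 P₀ h2 g h3 h4 h5

end Pool.Agent.Helper672.Lv
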