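import Pool.Agent.Helper672.Lv.T2
import Pool.Agent.Helper672.Lv.N5b
import Pool.Agent.Helper672.Lv.J27090
import Pool.Agent.Helper672.Lv.J27264
import Pool.Agent.Helper672.Lv.J27265
import Pool.Agent.Helper672.Lv.J27266

set_option autoImplicit false

namespace Pool.Agent.Helper672.Lv

open Set Topology Pool.Agent.Helper775.Tight Pool.Agent.Helper775.Tight.SoftCx

/-- a real 5-dimensional space of complex matrices of size twice an odd number contains a
singular one. -/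
theorem exists_singular {m : ℕ} (hm : m % 4 = 2) (S : Fin 5 → Matrix (Fin m) (Fin m) ℂ) :
    ∃ w : Fin 5 → ℝ, w ≠ 0 ∧ (∑ i, (w i : ℂ) • S i).det = 0 := by
  obtain ⟨n, rfl⟩ : ∃ n, m = 2 * n := ⟨m / 2, by omega⟩
  have hn : Odd n := by
    rw [Nat.odd_iff]; omega
  exact exists_singular_of (fun P h1 P₀ h2 g h3 h4 h5 =>
    J27090.no_odd_frames hn P h1 P₀ h2 g h3 h4 h5) S

/-- the combination of the forms with coefficients `w`, in the coordinates `Φ`. -/
noncomputable def FF {m M : ℕ} (q : Fin (m + 1) → QuadraticForm ℝ (Fin m → ℂ))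
    (Φ : E M ≃ₗ[ℝ] (Fin m → ℂ)) (w : E (m + 1)) : QuadraticForm ℝ (E M) :=
  (∑ j, w j • q j).comp Φ.toLinearMap

theorem FF_apply {m M : ℕ} (q : Fin (m + 1) → QuadraticForm ℝ (Fin m → ℂ))
    (Φ : E M ≃ₗ[ℝ] (Fin m → ℂ)) (w : E (m + 1)) (z : E M) :
    FF q Φ w z = ∑ j, w j * q j (Φ z) := by
  simp [FF]

/-- the linear map on matrices describing the quadratic map. -/
theorem exists_Q {m M : ℕ} (q : Fin (m + 1) → QuadraticForm ℝ (Fin m → ℂ))
    (Φ : E M ≃ₗ[ℝ] (Fin m → ℂ)) :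
    ∃ Q : W M →ₗ[ℝ] E (m + 1), ∀ z j, Q (v M z) j = q j (Φ z) := by
  let A : Fin (m + 1) → Fin M → Fin M → ℝ := fun j a b =>
    QuadraticMap.associated (R := ℝ) (q j) (Φ (EuclideanSpace.single a 1))
      (Φ (EuclideanSpace.single b 1))
  let Q : W M →ₗ[ℝ] E (m + 1) :=
    { toFun := fun P => WithLp.toLp 2 fun j => ∑ a, ∑ b, A j a b * P a b
      map_add' := by
        intro P P'
        ext j
        simp [mul_add, Finset.sum_add_distrib]
      map_smul' := by
        intro c P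
        ext j
        simp only [Pi.smul_apply, smul_eq_mul, RingHom.id_apply, PiLp.smul_apply, Finset.mul_sum]
        refine Finset.sum_congr rfl fun a _ => Finset.sum_congr rfl fun b _ => by ring }
  refine ⟨Q, fun z j => ?_⟩
  have hz : z = ∑ a, z a • (EuclideanSpace.single a (1 : ℝ) : E M) := by
    ext i
    simp [Finset.sum_apply, Pi.single_apply]
  have h1 : q j (Φ z) = QuadraticMap.associated (R := ℝ) (q j) (Φ z) (Φ z) := by
    rw [QuadraticMap.associated_eq_self_apply]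
  rw [h1]
  conv_rhs => rw [hz]
  change ∑ a, ∑ b, A j a b * (z a * z b) = _
  simp only [map_sum, map_smul, LinearMap.sum_apply, LinearMap.smul_apply, smul_eq_mul,
    Finset.mul_sum]
  rw [Finset.sum_comm]
  refine Finset.sum_congr rfl fun a _ => Finset.sum_congr rfl fun b _ => ?_
  change A j b a * (z b * z a) = _
  ring

/-- multiplication by `i` in the coordinates `Φ`. -/
noncomputable def JJ {m M : ℕ} (Φ : E M ≃ₗ[ℝ] (Fin m → ℂ)) : E M →ₗ[ℝ] E M :=
  Φ.symm.toLinearMap ∘ₗ (LinearMap.restrictScalars ℝ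
    ((Complex.I : ℂ) • (LinearMap.id : (Fin m → ℂ) →ₗ[ℂ] (Fin m → ℂ)))) ∘ₗ Φ.toLinearMap

theorem JJ_apply {m M : ℕ} (Φ : E M ≃ₗ[ℝ] (Fin m → ℂ)) (z : E M) :
    JJ Φ z = Φ.symm (Complex.I • Φ z) := by
  simp [JJ]

theorem JJ_inj {m M : ℕ} (Φ : E M ≃ₗ[ℝ] (Fin m → ℂ)) : Function.Injective (JJ Φ) := by
  intro x y h
  rw [JJ_apply, JJ_apply] at h
  have h1 := Φ.symm.injective h
  have h2 : (Complex.I : ℂ) ≠ 0 := Complex.I_ne_zero
  exact Φ.injective (smul_right_injective _ h2 h1)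

theorem FF_JJ {m M : ℕ} (q : Fin (m + 1) → QuadraticForm ℝ (Fin m → ℂ))
    (hq : ∀ j z, q j (Complex.I • z) = - q j z)
    (Φ : E M ≃ₗ[ℝ] (Fin m → ℂ)) (w : E (m + 1)) (z : E M) :
    FF q Φ w (JJ Φ z) = - FF q Φ w z := by
  rw [FF_apply, FF_apply, JJ_apply, LinearEquiv.apply_symm_apply, ← Finset.sum_neg_distrib]
  refine Finset.sum_congr rfl fun j _ => ?_
  rw [hq]; ring

/-- spectral form with the bound on the number of nonnegative directions. -/
theorem spec_bound {m : ℕ} (q : Fin (m + 1) → QuadraticForm ℝ (Fin m → ℂ))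
    (hq : ∀ j z, q j (Complex.I • z) = - q j z)
    (Φ : E (2 * m) ≃ₗ[ℝ] (Fin m → ℂ)) (w : E (m + 1)) :
    ∃ (O : E (2 * m) ≃ₗᵢ[ℝ] E (2 * m)) (N : ℕ) (lam : Fin (2 * m) → ℝ), m ≤ N ∧ N ≤ 2 * m ∧
      (∀ i : Fin (2 * m), i.val < N → 0 ≤ lam i) ∧
      (∀ i : Fin (2 * m), N ≤ i.val → lam i < 0) ∧
      (∀ z : E (2 * m), FF q Φ w (O z) = ∑ i, lam i * (z i) ^ 2) ∧
      ∀ u : Fin m → ℂ, u ≠ 0 → (∀ z, ∑ j, w j * q j (u + z) = ∑ j, w j * q j z) → m + 1 ≤ N := by
  obtain ⟨O, N, lam, hN, hp, hn, hf⟩ := J27264.exists_spec (FF q Φ w)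
  have hF : ∀ z, FF q (O.toLinearEquiv.trans Φ) w z = FF q Φ w (O z) := by
    intro z
    rw [FF_apply, FF_apply]
    rfl
  have hneg : ∀ z : E (2 * m), (∀ i : Fin (2 * m), i.val < N → z i = 0) → z ≠ 0 →
      FF q (O.toLinearEquiv.trans Φ) w z < 0 := by
    intro z hz hz0
    rw [hF, hf]
    have h1 : ∃ i, z i ≠ 0 := by
      by_contra hcon
      push Not at hcon
      exact hz0 (by ext i; simpa using hcon i)
    obtain ⟨i0, hi0⟩ := h1
    refine Finset.sum_neg' ?_ ⟨i0, Finset.mem_univ _, ?_⟩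
    · intro i _
      rcases Nat.lt_or_ge i.val N with h | h
      · rw [hz i h]; simp
      · exact mul_nonpos_of_nonpos_of_nonneg (hn i h).le (sq_nonneg _)
    · have h2 : N ≤ i0.val := by
        by_contra h3
        exact hi0 (hz i0 (by omega))
      exact mul_neg_of_neg_of_pos (hn i0 h2) (by positivity)
  refine ⟨O, N, lam, ?_, hN, hp, hn, hf, ?_⟩
  · have := J27265.index_bound hN (FF q (O.toLinearEquiv.trans Φ) w) (JJ _) (JJ_inj _)
      (FF_JJ q hq _ w) hneg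
    omega
  · intro u hu hker
    have := J27265.index_bound_radical hN (FF q (O.toLinearEquiv.trans Φ) w) (JJ _) (JJ_inj _)
      (FF_JJ q hq _ w) hneg ((O.toLinearEquiv.trans Φ).symm u)
      (by simpa using hu) (by
        intro z
        rw [FF_apply, FF_apply, map_add, LinearEquiv.apply_symm_apply]
        exact hker _)
    omega

/-- no `m + 1` forms. -/
theorem no_forms {m : ℕ} (hm : m % 4 = 2) (hm6 : 6 ≤ m)
    (q : Fin (m + 1) → QuadraticForm ℝ (Fin m → ℂ))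
    (hq : ∀ j z, q j (Complex.I • z) = - q j z) (hfree : ∀ z, z ≠ 0 → ∃ j, q j z ≠ 0) :
    False := by
  obtain ⟨w₀, hw₀, u, hu, hker⟩ := J27266.exists_radical_of (fun S => exists_singular hm S)
    (by omega) q hq
  have hfin : Module.finrank ℝ (E (2 * m)) = Module.finrank ℝ (Fin m → ℂ) := by
    rw [finrank_euclideanSpace_fin, Module.finrank_pi_fintype]
    simp [Complex.finrank_real_complex, mul_comm]
  obtain ⟨Φ₀⟩ : Nonempty (E (2 * m) ≃ₗ[ℝ] (Fin m → ℂ)) := ⟨LinearEquiv.ofFinrankEq _ _ hfin⟩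
  obtain ⟨O, N, lam, hmN, hN, hp, hn, hf, hr⟩ := spec_bound q hq Φ₀ w₀
  have hN1 := hr u hu hker
  set Φ := O.toLinearEquiv.trans Φ₀ with hΦ
  obtain ⟨Q, hQ⟩ := exists_Q q Φ
  have hin : ∀ (w : E (m + 1)) (z : E (2 * m)), inner ℝ w (Q (v (2 * m) z)) = FF q Φ w z := by
    intro w z
    rw [FF_apply, PiLp.inner_apply]
    refine Finset.sum_congr rfl fun j _ => ?_
    rw [hQ]
    simp [mul_comm]
  refine T2 (m := m) (M := 2 * m) (by omega) (by omega) Q ?_ ?_ w₀ ⟨hw₀, ?_⟩ ?_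
  · intro z hz h0
    have hz0 : z ≠ 0 := by
      rintro rfl
      have := hz.1
      rw [norm_zero] at this
      exact zero_ne_one this
    obtain ⟨j, hj⟩ := hfree (Φ z) (by
      rw [ne_eq, LinearEquiv.map_eq_zero_iff]; exact hz0)
    apply hj
    rw [← hQ, h0]
    rfl
  · intro w hw
    obtain ⟨O', N', lam', h1, h2, h3, h4, h5, -⟩ := spec_bound q hq Φ w
    refine ⟨O', N', lam', h1, h2, h3, h4, fun z => ?_⟩
    rw [hin, h5]
  · intro i hi
    exact absurd i.2 (by omega)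
  · intro z hz
    rw [hin]
    have : FF q Φ w₀ z = FF q Φ₀ w₀ (O z) := by
      rw [FF_apply, FF_apply]
      rfl
    rw [this, hf]
    refine Finset.sum_nonneg fun i _ => ?_
    rcases Nat.lt_or_ge i.val (m + 1) with h | h
    · exact mul_nonneg (hp i (by omega)) (sq_nonneg _)
    · rw [hz.2 i h]; simp

end Pool.Agent.Helper672.Lv
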