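import Mathlib

set_option autoImplicit false

namespace Pool.Agent.Helper672.Lv

/-- entrywise contour integral of the resolvent over the circle with centre `ρ i` and
radius `ρ`. -/
noncomputable def Ec {N : ℕ} (ρ : ℝ) (R : Matrix (Fin N) (Fin N) ℂ) : Matrix (Fin N) (Fin N) ℂ :=
  fun i j => (2 * Real.pi * Complex.I : ℂ)⁻¹ *
    circleIntegral (fun z => ((z • (1 : Matrix (Fin N) (Fin N) ℂ) - R)⁻¹) i j)
      ((ρ : ℂ) * Complex.I) ρ

end Pool.Agent.Helper672.Lv
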