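import Pool.Agent.Helper672.Lv.Base

set_option autoImplicit false

namespace Pool.Agent.Helper672.Lv.J26886

open Set Topology Pool.Agent.Helper775.Tight Pool.Agent.Helper775.Tight.SoftCx



/-- the lift of a point of `PA` to the sphere -/
noncomputable def PA_s (M k : ℕ) (hk : k < M) (P : W M) : E M :=
  WithLp.toLp 2 (fun i => P i ⟨k, hk⟩ / Real.sqrt (P ⟨k, hk⟩ ⟨k, hk⟩))

theorem PA_s_facts {M k : ℕ} (hk : k < M) (P : W M) (hP : P ∈ PA M k hk) :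
    PA_s M k hk P ∈ Sp M (k + 1) ∧ 1 / 2 ≤ (PA_s M k hk P ⟨k, hk⟩) ^ 2 ∧
      0 < PA_s M k hk P ⟨k, hk⟩ ∧ v M (PA_s M k hk P) = P := by
  obtain ⟨⟨x, hx, rfl⟩, hP⟩ := hP
  have hP' : 1 / 2 ≤ x ⟨k, hk⟩ * x ⟨k, hk⟩ := hP
  have hx0 : x ⟨k, hk⟩ ≠ 0 := by
    intro h
    rw [h] at hP'
    norm_num at hP'
  have habs : 0 < |x ⟨k, hk⟩| := abs_pos.2 hx0
  have hsq : Real.sqrt (v M x ⟨k, hk⟩ ⟨k, hk⟩) = |x ⟨k, hk⟩| := by
    show Real.sqrt (x ⟨k, hk⟩ * x ⟨k, hk⟩) = _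
    exact Real.sqrt_mul_self_eq_abs _
  set ε : ℝ := x ⟨k, hk⟩ / |x ⟨k, hk⟩| with hε
  have hε2 : ε * ε = 1 := by
    rw [hε, div_mul_div_comm, abs_mul_abs_self, div_self]
    exact mul_ne_zero hx0 hx0
  have hεa : |ε| = 1 := by
    rw [hε, abs_div, abs_abs, div_self habs.ne']
  have hs : PA_s M k hk (v M x) = ε • x := by
    ext i
    show v M x i ⟨k, hk⟩ / Real.sqrt (v M x ⟨k, hk⟩ ⟨k, hk⟩) = ε * x i
    rw [hsq, hε]
    show x i * x ⟨k, hk⟩ / |x ⟨k, hk⟩| = _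
    ring
  have hsk : PA_s M k hk (v M x) ⟨k, hk⟩ = |x ⟨k, hk⟩| := by
    rw [hs]
    show ε * x ⟨k, hk⟩ = _
    rw [hε, div_mul_eq_mul_div, ← abs_mul_abs_self (x ⟨k, hk⟩)]
    field_simp
  refine ⟨?_, ?_, ?_, ?_⟩
  · rw [hs]
    refine ⟨?_, fun i hi => ?_⟩
    · rw [norm_smul, Real.norm_eq_abs, hεa, hx.1, one_mul]
    · show ε * x i = 0
      rw [hx.2 i hi, mul_zero]
  · rw [hsk, sq_abs, sq]; exact hP'
  · rw [hsk]; exact habs
  · rw [hs]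
    funext i j
    show (ε * x i) * (ε * x j) = x i * x j
    linear_combination (x i * x j) * hε2

theorem PA_s_cont {M k : ℕ} (hk : k < M) (P : W M) (hP : P ∈ PA M k hk) :
    ContinuousAt (PA_s M k hk) P := by
  have hpos : 0 < P ⟨k, hk⟩ ⟨k, hk⟩ := lt_of_lt_of_le (by norm_num) hP.2
  unfold PA_s
  have h1 : ContinuousAt (fun P : W M => fun i : Fin M =>
      P i ⟨k, hk⟩ / Real.sqrt (P ⟨k, hk⟩ ⟨k, hk⟩)) P := by
    refine continuousAt_pi.2 (fun i => ?_)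
    have hij : ∀ i j : Fin M, Continuous (fun P : W M => P i j) := fun i j =>
      (continuous_apply j).comp (continuous_apply i)
    refine ContinuousAt.div (hij i _).continuousAt
      (Real.continuous_sqrt.comp (hij _ _)).continuousAt ?_
    exact (Real.sqrt_pos.2 hpos).ne'
  exact ContinuousAt.comp (g := WithLp.toLp 2) (by fun_prop) h1

theorem PA_compact {M k : ℕ} (hk : k < M) : IsCompact (PA M k hk) := by
  have : PA M k hk = PP M (k + 1) ∩ {P | 1 / 2 ≤ P ⟨k, hk⟩ ⟨k, hk⟩} := rfl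
  rw [this]
  apply (PP_compact M (k + 1)).inter_right
  exact isClosed_le continuous_const (by fun_prop)

theorem PA_acy {M k : ℕ} (hk : k < M) : (AS (W M)).Acy one (PA M k hk) := by
  set p : E M := EuclideanSpace.single (⟨k, hk⟩ : Fin M) (1 : ℝ) with hp
  have hpn : ‖p‖ = 1 := by rw [hp]; simp
  have hpk : p ⟨k, hk⟩ = 1 := by rw [hp]; simp
  have hpi : ∀ i : Fin M, k + 1 ≤ i.val → p i = 0 := by
    intro i hi
    rw [hp]
    have : i ≠ (⟨k, hk⟩ : Fin M) := by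
      intro h
      rw [h] at hi
      simp at hi
    simp [this]
  set Y : ℝ → E M → E M := fun t x => (1 - t) • x + t • p with hY
  have hYi : ∀ t x i, Y t x i = (1 - t) * x i + t * p i := fun t x i => rfl
  have hYk : ∀ t x, Y t x ⟨k, hk⟩ = (1 - t) * x ⟨k, hk⟩ + t := by
    intro t x
    rw [hYi, hpk, mul_one]
  have hYn : ∀ t x, ‖x‖ = 1 → ‖Y t x‖ ^ 2 =
      (1 - t) ^ 2 + 2 * (t * (1 - t)) * x ⟨k, hk⟩ + t ^ 2 := by
    intro t x hx
    have hin : inner ℝ x p = x ⟨k, hk⟩ := by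
      rw [hp, EuclideanSpace.inner_single_right]; simp
    show ‖(1 - t) • x + t • p‖ ^ 2 = _
    rw [norm_add_sq_real, norm_smul, norm_smul, hx, hpn, inner_smul_left, inner_smul_right, hin,
      Real.norm_eq_abs, Real.norm_eq_abs, mul_one, mul_one, sq_abs, sq_abs]
    simp
    ring
  have hYpos : ∀ t ∈ Icc (0:ℝ) 1, ∀ x : E M, 0 < x ⟨k, hk⟩ → 0 < Y t x ⟨k, hk⟩ := by
    intro t ht x hx
    rw [hYk]
    rcases ht.2.lt_or_eq with h | h
    · have := mul_pos (sub_pos.2 h) hx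
      linarith [ht.1]
    · rw [h]; norm_num
  have hY0 : ∀ t ∈ Icc (0:ℝ) 1, ∀ x : E M, 0 < x ⟨k, hk⟩ → Y t x ≠ 0 := by
    intro t ht x hx h0
    have h1 := hYpos t ht x hx
    rw [h0] at h1
    exact lt_irrefl _ h1
  have hp1 : p ∈ Sp M (k + 1) := ⟨hpn, hpi⟩
  refine acy_of_contract (PA_compact hk)
    (fun t P => v M (‖Y t (PA_s M k hk P)‖⁻¹ • Y t (PA_s M k hk P))) (v M p) ?_ ?_ ?_ ?_ ?_
  · intro t ht P hP
    obtain ⟨s1, s2, s3, s4⟩ := PA_s_facts hk P hP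
    have hc : Continuous (fun q : ℝ × E M => Y q.1 q.2) := by
      rw [hY]
      fun_prop
    have hs : ContinuousAt (fun q : ℝ × W M => PA_s M k hk q.2) (t, P) :=
      ContinuousAt.comp (x := ((t, P) : ℝ × W M)) (f := Prod.snd) (g := PA_s M k hk)
        (PA_s_cont hk P hP) continuousAt_snd
    have hc2 : ContinuousAt (fun q : ℝ × W M => Y q.1 (PA_s M k hk q.2)) (t, P) :=
      ContinuousAt.comp (x := ((t, P) : ℝ × W M)) (f := fun q : ℝ × W M => (q.1, PA_s M k hk q.2))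
        (g := fun q : ℝ × E M => Y q.1 q.2) hc.continuousAt (continuousAt_fst.prodMk hs)
    have hc3 : ContinuousAt (fun q : ℝ × W M =>
        ‖Y q.1 (PA_s M k hk q.2)‖⁻¹ • Y q.1 (PA_s M k hk q.2)) (t, P) :=
      (hc2.norm.inv₀ (norm_ne_zero_iff.2 (hY0 t ht _ s3))).smul hc2
    exact ContinuousAt.comp (x := ((t, P) : ℝ × W M))
      (f := fun q : ℝ × W M => ‖Y q.1 (PA_s M k hk q.2)‖⁻¹ • Y q.1 (PA_s M k hk q.2))
      (g := v M) (v_continuous M).continuousAt hc3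
  · intro t ht P hP
    obtain ⟨s1, s2, s3, s4⟩ := PA_s_facts hk P hP
    set z := PA_s M k hk P with hz
    have hn : 0 < ‖Y t z‖ := norm_pos_iff.2 (hY0 t ht z s3)
    refine ⟨⟨‖Y t z‖⁻¹ • Y t z, ⟨?_, ?_⟩, rfl⟩, ?_⟩
    · rw [norm_smul, norm_inv, norm_norm, inv_mul_cancel₀ hn.ne']
    · intro i hi
      show ‖Y t z‖⁻¹ * Y t z i = 0
      rw [hYi, s1.2 i hi, hpi i hi]
      ring
    · show 1 / 2 ≤ (‖Y t z‖⁻¹ * Y t z ⟨k, hk⟩) * (‖Y t z‖⁻¹ * Y t z ⟨k, hk⟩)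
      have h1 := hYn t z s1.1
      have h2 := hYk t z
      have h3 : (‖Y t z‖⁻¹ * Y t z ⟨k, hk⟩) * (‖Y t z‖⁻¹ * Y t z ⟨k, hk⟩) =
          (Y t z ⟨k, hk⟩) ^ 2 / ‖Y t z‖ ^ 2 := by
        field_simp
      rw [h3, le_div_iff₀ (by positivity), h1, h2]
      have h4 : 0 ≤ (1 - t) ^ 2 * ((z ⟨k, hk⟩) ^ 2 - 1 / 2) :=
        mul_nonneg (sq_nonneg _) (by linarith)
      have h5 : 0 ≤ t * (1 - t) * z ⟨k, hk⟩ :=
        mul_nonneg (mul_nonneg ht.1 (by linarith [ht.2])) s3.le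
      nlinarith [sq_nonneg t]
  · intro P hP
    obtain ⟨s1, s2, s3, s4⟩ := PA_s_facts hk P hP
    have h4 : Y 0 (PA_s M k hk P) = PA_s M k hk P := by simp [hY]
    show v M (‖Y 0 (PA_s M k hk P)‖⁻¹ • Y 0 (PA_s M k hk P)) = P
    rw [h4, s1.1, inv_one, one_smul, s4]
  · intro P hP
    have h4 : Y 1 (PA_s M k hk P) = p := by simp [hY]
    show v M (‖Y 1 (PA_s M k hk P)‖⁻¹ • Y 1 (PA_s M k hk P)) = v M p
    rw [h4, hpn, inv_one, one_smul]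
  · refine ⟨⟨p, hp1, rfl⟩, ?_⟩
    show 1 / 2 ≤ p ⟨k, hk⟩ * p ⟨k, hk⟩
    rw [hpk]; norm_num

end Pool.Agent.Helper672.Lv.J26886
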