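import Pool.Agent.Helper672.Lv.Base

set_option autoImplicit false

namespace Pool.Agent.Helper672.Lv.J26888

open Set Topology Pool.Agent.Helper775.Tight Pool.Agent.Helper775.Tight.SoftCx



theorem PAB_ex {M k : ℕ} (hk : k < M) (h1 : 1 ≤ k) (n : ℕ) (hn : 2 ≤ n) (hnk : n ≠ k) :
    (AS (W M)).Ex (PA M k hk ∩ PB M k hk) n := by
  classical
  obtain ⟨K, hK⟩ : ∃ K : Fin M, K = ⟨k, hk⟩ := ⟨_, rfl⟩
  have hKv : (K : ℕ) = k := by rw [hK]
  obtain ⟨dl, hdl⟩ : ∃ dl : Fin M → ℝ, dl = fun i => if i = K then 1 else 0 := ⟨_, rfl⟩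
  obtain ⟨g, hg⟩ : ∃ g : W M → E M,
      g = fun P => WithLp.toLp 2 (fun i : Fin M => if (i : ℕ) < k then 2 * P i K else 0) := ⟨_, rfl⟩
  obtain ⟨g', hg'⟩ : ∃ g' : E M → W M,
      g' = fun y i j => (1 / 2) * ((y i + dl i) * (y j + dl j)) := ⟨_, rfl⟩
  have hgi : ∀ P (i : Fin M), g P i = if (i : ℕ) < k then 2 * P i K else 0 := by
    intro P i; rw [hg]
  have hgc : Continuous g := by
    rw [hg]
    apply (PiLp.continuous_toLp 2 _).comp
    apply continuous_pi
    intro i
    by_cases hi : (i : ℕ) < k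
    · simp only [hi, if_true]; fun_prop
    · simp only [hi, if_false]; exact continuous_const
  have hg'c : Continuous g' := by
    rw [hg']
    apply continuous_pi
    intro i
    apply continuous_pi
    intro j
    fun_prop
  have hmem : ∀ P ∈ PA M k hk ∩ PB M k hk, ∃ x : E M, x ∈ Sp M (k + 1) ∧ P = v M x ∧
      x K * x K = 1 / 2 := by
    rintro P ⟨⟨⟨x, hx, rfl⟩, h2⟩, ⟨_, h3⟩⟩
    refine ⟨x, hx, rfl, ?_⟩
    rw [hK]
    exact le_antisymm h3 h2
  have hkey : ∀ x : E M, x ∈ Sp M (k + 1) → x K * x K = 1 / 2 →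
      ∀ i, g (v M x) i = 2 * x i * x K - dl i := by
    intro x hx hxK i
    rw [hgi, hdl]
    by_cases hi : (i : ℕ) < k
    · have hne : i ≠ K := by
        rintro rfl
        omega
      simp only [hi, if_true, hne, if_false, v]
      ring
    · by_cases hiK : i = K
      · subst hiK
        simp only [hi, if_false, if_true]
        linarith
      · have hx0 : x i = 0 := by
          apply hx.2
          rcases Nat.lt_or_ge k (i : ℕ) with h | h
          · exact h
          · exfalso
            apply hiK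
            apply Fin.ext
            omega
        simp only [hi, if_false, hiK, hx0]
        ring
  have hsum_dl : ∑ i, dl i = 1 := by
    rw [hdl]
    simp
  have hsum_xdl : ∀ f : Fin M → ℝ, ∑ i, f i * dl i = f K := by
    intro f
    rw [hdl]
    simp
  have hdl2 : ∀ i, dl i ^ 2 = dl i := by
    intro i
    rw [hdl]
    by_cases h : i = K <;> simp [h]
  have hnorm : ∀ y : E M, ‖y‖ = 1 ↔ ∑ i, y i ^ 2 = 1 := by
    intro y
    rw [← EuclideanSpace.real_norm_sq_eq]
    constructor
    · intro h; rw [h]; norm_num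
    · intro h
      have h0 := norm_nonneg y
      nlinarith [h0, h]
  refine ex_retract (g := g) (g' := g') (F' := Sp M k) (fun x _ => hgc.continuousAt)
    (fun x _ => hg'c.continuousAt) ?_ ?_ ?_ (sp_ex h1 hk.le n hn hnk)
  · intro P hP
    obtain ⟨x, hx, rfl, hxK⟩ := hmem P hP
    refine ⟨?_, ?_⟩
    · rw [hnorm]
      have e1 : ∀ i, g (v M x) i ^ 2 = 2 * x i ^ 2 - (4 * x K * x i) * dl i + dl i := by
        intro i
        rw [hkey x hx hxK i]
        have := hdl2 i
        calc (2 * x i * x K - dl i) ^ 2 = 4 * x i ^ 2 * (x K * x K) - (4 * x K * x i) * dl i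
              + dl i ^ 2 := by ring
          _ = _ := by rw [hxK, this]; ring
      rw [Finset.sum_congr rfl (fun i _ => e1 i), Finset.sum_add_distrib, Finset.sum_sub_distrib,
        hsum_dl, hsum_xdl (fun i => 4 * x K * x i), ← Finset.mul_sum, (hnorm x).1 hx.1]
      linarith
    · intro i hi
      rw [hgi]
      simp only [not_lt.mpr hi, if_false]
  · intro y hy
    have hyK : y K = 0 := hy.2 K (by omega)
    have hc : Real.sqrt (1 / 2) * Real.sqrt (1 / 2) = 1 / 2 := Real.mul_self_sqrt (by norm_num)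
    have hdK : dl K = 1 := by rw [hdl]; simp
    obtain ⟨x, hxd⟩ : ∃ x : E M, x = WithLp.toLp 2 (fun i => Real.sqrt (1 / 2) * (y i + dl i)) :=
      ⟨_, rfl⟩
    have hxi : ∀ i, x i = Real.sqrt (1 / 2) * (y i + dl i) := by
      intro i; rw [hxd]
    have hxS : x ∈ Sp M (k + 1) := by
      refine ⟨?_, ?_⟩
      · rw [hnorm]
        have e1 : ∀ i, x i ^ 2 = (1 / 2) * y i ^ 2 + y i * dl i + (1 / 2) * dl i := by
          intro i
          rw [hxi]
          have := hdl2 i
          calc (Real.sqrt (1 / 2) * (y i + dl i)) ^ 2 =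
                (Real.sqrt (1 / 2) * Real.sqrt (1 / 2)) * (y i ^ 2 + 2 * (y i * dl i) + dl i ^ 2) := by
                ring
            _ = _ := by rw [hc, this]; ring
        rw [Finset.sum_congr rfl (fun i _ => e1 i), Finset.sum_add_distrib, Finset.sum_add_distrib,
          hsum_xdl (fun i => y i), ← Finset.mul_sum, ← Finset.mul_sum, hsum_dl,
          (hnorm y).1 hy.1, hyK]
        norm_num
      · intro i hi
        rw [hxi, hy.2 i (by omega), hdl]
        have hne : i ≠ K := by
          rintro rfl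
          omega
        simp [hne]
    have hvx : g' y = v M x := by
      funext i j
      rw [hg']
      simp only [v]
      rw [hxi, hxi]
      calc (1 / 2) * ((y i + dl i) * (y j + dl j)) =
            (Real.sqrt (1 / 2) * Real.sqrt (1 / 2)) * ((y i + dl i) * (y j + dl j)) := by rw [hc]
        _ = _ := by ring
    have hKK : g' y K K = 1 / 2 := by
      rw [hg']
      simp only [hyK, hdK]
      norm_num
    have hPP : g' y ∈ PP M (k + 1) := by
      rw [hvx]
      exact ⟨x, hxS, rfl⟩
    rw [hK] at hKK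
    exact ⟨⟨hPP, hKK.ge⟩, ⟨hPP, hKK.le⟩⟩
  · intro P hP
    obtain ⟨x, hx, rfl, hxK⟩ := hmem P hP
    funext i j
    rw [hg']
    simp only
    rw [hkey x hx hxK i, hkey x hx hxK j]
    simp only [v]
    calc (1 / 2) * ((2 * x i * x K - dl i + dl i) * (2 * x j * x K - dl j + dl j)) =
          2 * (x i * x j) * (x K * x K) := by ring
      _ = x i * x j := by rw [hxK]; ring

end Pool.Agent.Helper672.Lv.J26888
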