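import Pool.Agent.Helper672.Lv.Base

set_option autoImplicit false

namespace Pool.Agent.Helper672.Lv.J26890

open Set Topology Pool.Agent.Helper775.Tight Pool.Agent.Helper775.Tight.SoftCx



/-- the scaling factors. -/
noncomputable def pbD {M : ℕ} (k : Fin M) (t : ℝ) (l : Fin M) : ℝ := if l = k then 1 - t else 1

/-- the normalising factor. -/
noncomputable def pbS {M : ℕ} (k : Fin M) (t : ℝ) (P : W M) : ℝ := ∑ l, pbD k t l ^ 2 * P l l

/-- the homotopy. -/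
noncomputable def pbH {M : ℕ} (k : Fin M) (t : ℝ) (P : W M) : W M := fun i j =>
  pbD k t i * pbD k t j * P i j / pbS k t P

theorem pbS_eq {M : ℕ} (k : Fin M) (t : ℝ) (x : E M) (hx : ‖x‖ = 1) :
    pbS k t (v M x) = 1 - x k ^ 2 + (1 - t) ^ 2 * x k ^ 2 := by
  have h1 : ∑ l, x l ^ 2 = 1 := by
    have := EuclideanSpace.norm_sq_eq x
    rw [hx] at this
    simp only [Real.norm_eq_abs, sq_abs] at this
    linarith
  have h2 : pbS k t (v M x) = ∑ l, (x l ^ 2 + if l = k then ((1 - t) ^ 2 - 1) * x l ^ 2 else 0) := by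
    unfold pbS pbD v
    apply Finset.sum_congr rfl
    intro l _
    split_ifs <;> ring
  rw [h2, Finset.sum_add_distrib, h1, Finset.sum_ite_eq' Finset.univ k]
  simp only [Finset.mem_univ, if_true]
  ring

theorem pbH_eq {M : ℕ} (k : Fin M) (t : ℝ) (x : E M) (hx : ‖x‖ = 1) (hk : x k ^ 2 ≤ 1 / 2) :
    ∃ y : E M, ‖y‖ = 1 ∧ (∀ i, x i = 0 → y i = 0) ∧ (t = 1 → y k = 0) ∧
      pbH k t (v M x) = v M y := by
  have hS := pbS_eq k t x hx
  have hSpos : 0 < pbS k t (v M x) := by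
    rw [hS]
    nlinarith [sq_nonneg ((1 - t) * x k)]
  have hnd : ‖(WithLp.toLp 2 (fun i => pbD k t i * x i) : E M)‖ ^ 2 = pbS k t (v M x) := by
    rw [EuclideanSpace.norm_sq_eq]
    unfold pbS v
    apply Finset.sum_congr rfl
    intro l _
    rw [Real.norm_eq_abs, sq_abs]
    simp only [PiLp.toLp_apply]
    ring
  set z : E M := WithLp.toLp 2 (fun i => pbD k t i * x i) with hz
  have hzpos : 0 < ‖z‖ := by
    rcases (norm_nonneg z).eq_or_lt with h | h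
    · rw [← h] at hnd
      norm_num at hnd
      linarith
    · exact h
  have hzi : ∀ i, z i = pbD k t i * x i := fun i => rfl
  have hyi : ∀ i, (‖z‖⁻¹ • z) i = ‖z‖⁻¹ * (pbD k t i * x i) := fun i => rfl
  refine ⟨‖z‖⁻¹ • z, ?_, ?_, ?_, ?_⟩
  · rw [norm_smul, norm_inv, norm_norm, inv_mul_cancel₀ hzpos.ne']
  · intro i hi
    rw [hyi, hi]
    ring
  · intro ht
    rw [hyi, pbD, if_pos rfl, ht]
    ring
  · funext i j
    unfold pbH v
    simp only [hyi]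
    have : pbS k t (fun i j => x i * x j) = ‖z‖ ^ 2 := hnd.symm
    rw [this]
    field_simp

theorem pbH_cont {M : ℕ} (k : Fin M) (t : ℝ) (P : W M) (h : pbS k t P ≠ 0) :
    ContinuousAt (fun p : ℝ × W M => pbH k p.1 p.2) (t, P) := by
  have hD : ∀ l : Fin M, Continuous fun p : ℝ × W M => pbD k p.1 l := by
    intro l
    unfold pbD
    split_ifs
    · fun_prop
    · fun_prop
  have hE : ∀ i j : Fin M, Continuous fun p : ℝ × W M => p.2 i j := by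
    intro i j
    exact (continuous_apply j).comp ((continuous_apply i).comp continuous_snd)
  have hS : Continuous fun p : ℝ × W M => pbS k p.1 p.2 := by
    unfold pbS
    refine continuous_finset_sum _ fun l _ => ?_
    exact ((hD l).pow 2).mul (hE l l)
  refine continuousAt_pi.2 fun i => continuousAt_pi.2 fun j => ?_
  unfold pbH
  exact ContinuousAt.div (((hD i).mul (hD j)).mul (hE i j)).continuousAt hS.continuousAt h

theorem PB_cob {M k : ℕ} (hk : k < M) (h1 : 1 ≤ k) {n : ℕ} {c : Ch (W M)}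
    (hc : (AS (W M)).Coc (PB M k hk) n c) (h : (AS (W M)).Cob (PP M k) n c) :
    (AS (W M)).Cob (PB M k hk) n c := by
  have hPBc : IsCompact (PB M k hk) := by
    refine (PP_compact M (k + 1)).inter_right (t := {P : W M | P ⟨k, hk⟩ ⟨k, hk⟩ ≤ 1 / 2}) ?_
    refine isClosed_le ?_ continuous_const
    exact (continuous_apply _).comp (continuous_apply _)
  have hSne : ∀ t : ℝ, ∀ P ∈ PB M k hk, pbS ⟨k, hk⟩ t P ≠ 0 := by
    rintro t P ⟨⟨x, hx, rfl⟩, hx2⟩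
    rw [pbS_eq _ _ _ hx.1]
    have : x ⟨k, hk⟩ ^ 2 ≤ 1 / 2 := by
      have e : v M x ⟨k, hk⟩ ⟨k, hk⟩ = x ⟨k, hk⟩ ^ 2 := by unfold v; ring
      rwa [e] at hx2
    have : 0 < 1 - x ⟨k, hk⟩ ^ 2 + (1 - t) ^ 2 * x ⟨k, hk⟩ ^ 2 := by
      nlinarith [sq_nonneg ((1 - t) * x ⟨k, hk⟩)]
    exact this.ne'
  have hcont : ∀ t : ℝ, ∀ P ∈ PB M k hk,
      ContinuousAt (fun p : ℝ × W M => pbH ⟨k, hk⟩ p.1 p.2) (t, P) :=
    fun t P hP => pbH_cont _ t P (hSne t P hP)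
  have hcont1 : ∀ t : ℝ, ∀ P ∈ PB M k hk, ContinuousAt (pbH ⟨k, hk⟩ t) P := by
    intro t P hP
    have h2 : ContinuousAt (fun y : W M => (t, y)) P := by fun_prop
    exact ContinuousAt.comp (x := P) (f := fun y : W M => (t, y))
      (g := fun p : ℝ × W M => pbH ⟨k, hk⟩ p.1 p.2) (hcont t P hP) h2
  have hmaps : ∀ t ∈ Icc (0 : ℝ) 1, ∀ P ∈ PB M k hk, pbH ⟨k, hk⟩ t P ∈ PB M k hk := by
    rintro t ht P hP
    obtain ⟨⟨x, hx, rfl⟩, hx2⟩ := hP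
    have hx3 : x ⟨k, hk⟩ ^ 2 ≤ 1 / 2 := by
      have e : v M x ⟨k, hk⟩ ⟨k, hk⟩ = x ⟨k, hk⟩ ^ 2 := by unfold v; ring
      rwa [e] at hx2
    obtain ⟨y, hy1, hy2, -, hy4⟩ := pbH_eq ⟨k, hk⟩ t x hx.1 hx3
    refine ⟨?_, ?_⟩
    · rw [hy4]
      exact ⟨y, ⟨hy1, fun i hi => hy2 i (hx.2 i hi)⟩, rfl⟩
    · have hS := pbS_eq ⟨k, hk⟩ t x hx.1
      have hpos : 0 < 1 - x ⟨k, hk⟩ ^ 2 + (1 - t) ^ 2 * x ⟨k, hk⟩ ^ 2 := by
        nlinarith [sq_nonneg ((1 - t) * x ⟨k, hk⟩)]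
      have e : pbH ⟨k, hk⟩ t (v M x) ⟨k, hk⟩ ⟨k, hk⟩ =
          (1 - t) ^ 2 * x ⟨k, hk⟩ ^ 2 / (1 - x ⟨k, hk⟩ ^ 2 + (1 - t) ^ 2 * x ⟨k, hk⟩ ^ 2) := by
        unfold pbH
        rw [hS]
        unfold pbD v
        simp only [if_true]
        ring
      rw [e, div_le_iff₀ hpos]
      have h4 : (1 - t) ^ 2 ≤ 1 := by
        have := ht.1
        have := ht.2
        nlinarith
      have h5 : (1 - t) ^ 2 * x ⟨k, hk⟩ ^ 2 ≤ 1 * x ⟨k, hk⟩ ^ 2 :=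
        mul_le_mul_of_nonneg_right h4 (sq_nonneg _)
      linarith
  have h0 : ∀ P ∈ PB M k hk, pbH ⟨k, hk⟩ 0 P = P := by
    rintro P ⟨⟨x, hx, rfl⟩, hx2⟩
    funext i j
    unfold pbH
    rw [pbS_eq _ _ _ hx.1]
    have e : ∀ l, pbD (⟨k, hk⟩ : Fin M) 0 l = 1 := by
      intro l
      unfold pbD
      split_ifs <;> simp
    rw [e, e]
    norm_num
  have hm1 : MapsTo (pbH ⟨k, hk⟩ 1) (PB M k hk) (PP M k) := by
    rintro P ⟨⟨x, hx, rfl⟩, hx2⟩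
    have hx3 : x ⟨k, hk⟩ ^ 2 ≤ 1 / 2 := by
      have e : v M x ⟨k, hk⟩ ⟨k, hk⟩ = x ⟨k, hk⟩ ^ 2 := by unfold v; ring
      rwa [e] at hx2
    obtain ⟨y, hy1, hy2, hy3, hy4⟩ := pbH_eq ⟨k, hk⟩ 1 x hx.1 hx3
    refine ⟨y, ⟨hy1, fun i hi => ?_⟩, hy4.symm⟩
    rcases Nat.lt_or_ge k i.val with h5 | h5
    · exact hy2 i (hx.2 i h5)
    · have : i = ⟨k, hk⟩ := Fin.ext (le_antisymm h5 hi)
      rw [this]
      exact hy3 rfl
  have m0 : (0 : ℝ) ∈ Icc (0 : ℝ) 1 := left_mem_Icc.2 zero_le_one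
  have a1 := cob_pb_sub (F := PB M k hk) (g₁ := id) (g₂ := pbH ⟨k, hk⟩ 0)
    (fun x _ => continuousAt_id) (hcont1 0) (fun x hx => (h0 x hx).symm) (mapsTo_id _) hc
  have a2 := cob_pb_homotopy hPBc (pbH ⟨k, hk⟩) (fun t _ => hcont t) hmaps hc
  have a3 := cob_pb (F := PB M k hk) (g := pbH ⟨k, hk⟩ 1) (hcont1 1) hm1 h
  have e1 : pb (id : W M → W M) c = c := by funext l; simp [pb]
  rw [e1] at a1
  have := (a1.add a2).add a3
  simpa using this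

end Pool.Agent.Helper672.Lv.J26890
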