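import Pool.Agent.Helper672.Lv.Base

set_option autoImplicit false

namespace Pool.Agent.Helper672.Lv.J26892

open Set Topology Pool.Agent.Helper775.Tight Pool.Agent.Helper775.Tight.SoftCx



theorem DL_cob {M N : ℕ} (hN1 : 1 ≤ N) (hN : N ≤ M) (lam : Fin M → ℝ)
    (hpos : ∀ i : Fin M, i.val < N → 0 ≤ lam i) (hneg : ∀ i : Fin M, N ≤ i.val → lam i < 0)
    {n : ℕ} {c : Ch (E M)} (hc : (AS (E M)).Coc (DL M lam) n c)
    (h : (AS (E M)).Cob (Sp M N) n c) : (AS (E M)).Cob (DL M lam) n c := by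
  classical
  set P : E M → E M := fun z => WithLp.toLp 2 (fun i => if i.val < N then z i else 0) with hP
  have hPc : Continuous P := by
    rw [hP]
    refine (PiLp.continuous_toLp 2 _).comp (continuous_pi fun i => ?_)
    by_cases hi : i.val < N
    · simp only [hi, if_true]
      fun_prop
    · simp only [hi, if_false]
      exact continuous_const
  set Y : ℝ → E M → E M := fun t z => (1 - t) • z + t • P z with hY
  have hYi : ∀ t z i, Y t z i = (1 - t) * z i + t * (if i.val < N then z i else 0) :=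
    fun t z i => rfl
  have hYlt : ∀ t z (i : Fin M), i.val < N → Y t z i = z i := by
    intro t z i hi
    rw [hYi, if_pos hi]
    ring
  have hYge : ∀ t z (i : Fin M), N ≤ i.val → Y t z i = (1 - t) * z i := by
    intro t z i hi
    rw [hYi, if_neg (not_lt.mpr hi)]
    ring
  have hYc : Continuous (fun q : ℝ × E M => Y q.1 q.2) := by
    rw [hY]
    have h1 : Continuous (fun q : ℝ × E M => P q.2) := hPc.comp continuous_snd
    exact ((continuous_const.sub continuous_fst).smul continuous_snd).add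
      (continuous_fst.smul h1)
  have hY0 : ∀ t, ∀ z ∈ DL M lam, Y t z ≠ 0 := by
    intro t z hz h0
    have hlt : ∀ i : Fin M, i.val < N → z i = 0 := by
      intro i hi
      rw [← hYlt t z i hi, h0]
      rfl
    have hterm : ∀ i ∈ (Finset.univ : Finset (Fin M)), lam i * (z i) ^ 2 ≤ 0 := by
      intro i _
      rcases Nat.lt_or_ge i.val N with h | h
      · rw [hlt i h]
        simp
      · exact mul_nonpos_of_nonpos_of_nonneg (hneg i h).le (sq_nonneg _)
    have hsum : ∑ i, lam i * (z i) ^ 2 = 0 := le_antisymm (Finset.sum_nonpos hterm) hz.2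
    have hall := (Finset.sum_eq_zero_iff_of_nonpos hterm).mp hsum
    have hz0 : z = 0 := by
      ext i
      show z i = 0
      rcases Nat.lt_or_ge i.val N with h | h
      · exact hlt i h
      · have h2 := hall i (Finset.mem_univ i)
        rcases mul_eq_zero.mp h2 with h3 | h3
        · exact absurd h3 (hneg i h).ne
        · exact pow_eq_zero_iff (by norm_num) |>.mp h3
    have hn := hz.1.1
    rw [hz0, norm_zero] at hn
    norm_num at hn
  have hYsum : ∀ t ∈ Icc (0 : ℝ) 1, ∀ z ∈ DL M lam, 0 ≤ ∑ i, lam i * (Y t z i) ^ 2 := by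
    intro t ht z hz
    refine le_trans hz.2 (Finset.sum_le_sum fun i _ => ?_)
    rcases Nat.lt_or_ge i.val N with h | h
    · rw [hYlt t z i h]
    · rw [hYge t z i h, mul_pow]
      have h1 : (1 - t) ^ 2 ≤ 1 := by nlinarith [ht.1, ht.2]
      have h2 : lam i * z i ^ 2 ≤ 0 := mul_nonpos_of_nonpos_of_nonneg (hneg i h).le (sq_nonneg _)
      nlinarith
  set H : ℝ → E M → E M := fun t z => ‖Y t z‖⁻¹ • Y t z with hH
  have hHn : ∀ t, ∀ z ∈ DL M lam, ‖H t z‖ = 1 := by
    intro t z hz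
    have hn : 0 < ‖Y t z‖ := norm_pos_iff.2 (hY0 t z hz)
    rw [hH]
    show ‖‖Y t z‖⁻¹ • Y t z‖ = 1
    rw [norm_smul, norm_inv, norm_norm, inv_mul_cancel₀ hn.ne']
  have hHD : ∀ t ∈ Icc (0 : ℝ) 1, ∀ z ∈ DL M lam, H t z ∈ DL M lam := by
    intro t ht z hz
    refine ⟨⟨hHn t z hz, fun i hi => absurd i.2 (not_lt.mpr hi)⟩, ?_⟩
    have e : ∑ i, lam i * (H t z i) ^ 2 = (‖Y t z‖⁻¹) ^ 2 * ∑ i, lam i * (Y t z i) ^ 2 := by
      rw [Finset.mul_sum]
      refine Finset.sum_congr rfl fun i _ => ?_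
      show lam i * (‖Y t z‖⁻¹ * Y t z i) ^ 2 = _
      ring
    rw [e]
    exact mul_nonneg (sq_nonneg _) (hYsum t ht z hz)
  have hHc : ∀ t ∈ Icc (0 : ℝ) 1, ∀ z ∈ DL M lam,
      ContinuousAt (fun p : ℝ × E M => H p.1 p.2) (t, z) := by
    intro t _ z hz
    exact (hYc.norm.continuousAt.inv₀ (norm_ne_zero_iff.2 (hY0 t z hz))).smul hYc.continuousAt
  have hcont : ∀ t ∈ Icc (0 : ℝ) 1, ∀ x ∈ DL M lam, ContinuousAt (H t) x := by
    intro t ht x hx
    have h2 : ContinuousAt (fun y : E M => (t, y)) x := by fun_prop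
    exact ContinuousAt.comp (x := x) (f := fun y : E M => (t, y))
      (g := fun p : ℝ × E M => H p.1 p.2) (hHc t ht x hx) h2
  have m0 : (0 : ℝ) ∈ Icc (0 : ℝ) 1 := left_mem_Icc.2 zero_le_one
  have m1 : (1 : ℝ) ∈ Icc (0 : ℝ) 1 := right_mem_Icc.2 zero_le_one
  have h0 : ∀ z ∈ DL M lam, H 0 z = z := by
    intro z hz
    have h4 : Y 0 z = z := by simp [hY]
    show ‖Y 0 z‖⁻¹ • Y 0 z = z
    rw [h4, hz.1.1, inv_one, one_smul]
  have h1 : MapsTo (H 1) (DL M lam) (Sp M N) := by
    intro z hz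
    refine ⟨hHn 1 z hz, fun i hi => ?_⟩
    show ‖Y 1 z‖⁻¹ * Y 1 z i = 0
    rw [hYge 1 z i hi]
    ring
  have hcomp : IsCompact (DL M lam) := by
    have e : DL M lam = Sp M M ∩ {z | 0 ≤ ∑ i, lam i * (z i) ^ 2} := rfl
    rw [e]
    apply (Sp_compact M M).inter_right
    apply isClosed_le continuous_const
    fun_prop
  have a1 := cob_pb_sub (F := DL M lam) (g₁ := id) (g₂ := H 0) (fun x _ => continuousAt_id)
    (hcont 0 m0) (fun x hx => (h0 x hx).symm) (mapsTo_id _) hc
  have a2 := cob_pb_homotopy hcomp H hHc hHD hc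
  have a3 := cob_pb (F := DL M lam) (g := H 1) (hcont 1 m1) h1 h
  have e1 : pb (id : E M → E M) c = c := by
    funext l
    simp [pb]
  rw [e1] at a1
  have a4 := (a1.add a2).add a3
  simpa using a4

end Pool.Agent.Helper672.Lv.J26892
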