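import Pool.Agent.Helper672.Lv.Base

set_option autoImplicit false

namespace Pool.Agent.Helper672.Lv.J26893

open Set Topology Pool.Agent.Helper775.Tight Pool.Agent.Helper775.Tight.SoftCx



theorem hemi_acy {n : ℕ} (u : E n) (hu : u ≠ 0) :
    (AS (E n)).Acy one {w | w ∈ Sp n n ∧ 0 ≤ inner ℝ w u} := by
  have hu0 : 0 < ‖u‖ := norm_pos_iff.2 hu
  set p : E n := ‖u‖⁻¹ • u with hp
  have hpn : ‖p‖ = 1 := by
    rw [hp, norm_smul, norm_inv, norm_norm, inv_mul_cancel₀ hu0.ne']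
  have hpu : inner ℝ p u = ‖u‖ := by
    rw [hp, inner_smul_left, real_inner_self_eq_norm_sq]
    simp only [conj_trivial]
    field_simp
  have hSp : ∀ x : E n, ‖x‖ = 1 → x ∈ Sp n n := fun x hx =>
    ⟨hx, fun i hi => absurd i.isLt (not_lt.2 hi)⟩
  have hcp : IsCompact {w : E n | w ∈ Sp n n ∧ 0 ≤ inner ℝ w u} := by
    have h : {w : E n | w ∈ Sp n n ∧ 0 ≤ inner ℝ w u} =
        Sp n n ∩ {w | 0 ≤ inner ℝ w u} := rfl
    rw [h]
    refine (Sp_compact n n).inter_right ?_
    apply isClosed_le continuous_const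
    fun_prop
  set Y : ℝ → E n → E n := fun t x => (1 - t) • x + t • p with hY
  have hYu : ∀ t x, inner ℝ (Y t x) u = (1 - t) * inner ℝ x u + t * ‖u‖ := by
    intro t x
    rw [hY]
    simp only [inner_add_left, inner_smul_left, conj_trivial, hpu]
  have hY0 : ∀ t ∈ Icc (0 : ℝ) 1, ∀ x ∈ {w : E n | w ∈ Sp n n ∧ 0 ≤ inner ℝ w u},
      Y t x ≠ 0 := by
    intro t ht x hx h0
    have h1 := hYu t x
    rw [h0, inner_zero_left] at h1
    have h3 : 0 ≤ (1 - t) * inner ℝ x u := mul_nonneg (by linarith [ht.2]) hx.2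
    have ht0 : t = 0 := by
      by_contra hne
      have htp : 0 < t := lt_of_le_of_ne ht.1 (Ne.symm hne)
      have := mul_pos htp hu0
      linarith
    have h4 : Y t x = x := by rw [hY, ht0]; simp
    rw [h0] at h4
    have := hx.1.1
    rw [← h4, norm_zero] at this
    norm_num at this
  refine acy_of_contract hcp (fun t x => ‖Y t x‖⁻¹ • Y t x) p ?_ ?_ ?_ ?_
    ⟨hSp p hpn, by rw [hpu]; exact hu0.le⟩
  · intro t ht x hx
    have hc : Continuous (fun q : ℝ × E n => Y q.1 q.2) := by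
      rw [hY]
      fun_prop
    exact (hc.norm.continuousAt.inv₀ (norm_ne_zero_iff.2 (hY0 t ht x hx))).smul hc.continuousAt
  · intro t ht x hx
    have hn : 0 < ‖Y t x‖ := norm_pos_iff.2 (hY0 t ht x hx)
    refine ⟨hSp _ ?_, ?_⟩
    · rw [norm_smul, norm_inv, norm_norm, inv_mul_cancel₀ hn.ne']
    · show 0 ≤ inner ℝ (‖Y t x‖⁻¹ • Y t x) u
      rw [inner_smul_left, hYu]
      have h3 : 0 ≤ (1 - t) * inner ℝ x u := mul_nonneg (by linarith [ht.2]) hx.2
      have h4 : 0 ≤ t * ‖u‖ := mul_nonneg ht.1 hu0.le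
      simp only [conj_trivial]
      exact mul_nonneg (inv_nonneg.2 hn.le) (by linarith)
  · intro x hx
    have h4 : Y 0 x = x := by simp [hY]
    simp only [h4, hx.1.1, inv_one, one_smul]
  · intro x hx
    have h4 : Y 1 x = p := by simp [hY]
    simp only [h4, hpn, inv_one, one_smul]

end Pool.Agent.Helper672.Lv.J26893
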