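import Mathlib

set_option autoImplicit false

namespace Pool.Agent.Helper672.Lv.J27085

theorem exists_radius_eig {N : ℕ} (M : Matrix (Fin N) (Fin N) ℂ) (μ : ℂ)
    (h : (M - μ • (1 : Matrix (Fin N) (Fin N) ℂ)).det = 0) : ‖μ‖ ≤ ∑ i, ∑ j, ‖M i j‖ := by
  obtain ⟨v, hv0, hv⟩ := Matrix.exists_mulVec_eq_zero_iff.2 h
  obtain ⟨i0, hi0⟩ : ∃ i, v i ≠ 0 := by
    by_contra hcon
    push Not at hcon
    exact hv0 (funext hcon)
  have hne : (Finset.univ : Finset (Fin N)).Nonempty := ⟨i0, Finset.mem_univ _⟩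
  obtain ⟨i, -, hi⟩ := Finset.exists_max_image Finset.univ (fun i => ‖v i‖) hne
  have hvi : 0 < ‖v i‖ := lt_of_lt_of_le (norm_pos_iff.2 hi0) (hi i0 (Finset.mem_univ _))
  have h1 : μ * v i = ∑ j, M i j * v j := by
    have h2 := congrFun hv i
    rw [Matrix.sub_mulVec, Matrix.smul_mulVec, Matrix.one_mulVec] at h2
    have h3 : (M.mulVec v) i - μ * v i = 0 := h2
    have h4 : (M.mulVec v) i = ∑ j, M i j * v j := rfl
    rw [h4] at h3
    exact (sub_eq_zero.1 h3).symm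
  have h2 : ‖μ‖ * ‖v i‖ ≤ (∑ j, ‖M i j‖) * ‖v i‖ := by
    rw [← norm_mul, h1, Finset.sum_mul]
    refine (norm_sum_le _ _).trans (Finset.sum_le_sum fun j _ => ?_)
    rw [norm_mul]
    exact mul_le_mul_of_nonneg_left (hi j (Finset.mem_univ _)) (norm_nonneg _)
  have h3 : ‖μ‖ ≤ ∑ j, ‖M i j‖ := le_of_mul_le_mul_right h2 hvi
  exact h3.trans (Finset.single_le_sum (f := fun i => ∑ j, ‖M i j‖)
    (fun i _ => Finset.sum_nonneg fun _ _ => norm_nonneg _) (Finset.mem_univ i))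

/-- one circle encloses the eigenvalues in the upper half plane of a whole compact family. -/
theorem exists_radius {X : Type*} [TopologicalSpace X] [CompactSpace X] {N : ℕ}
    (R : X → Matrix (Fin N) (Fin N) ℂ) (hR : Continuous R)
    (hno : ∀ x (t : ℝ), (R x - (t : ℂ) • (1 : Matrix (Fin N) (Fin N) ℂ)).det ≠ 0) :
    ∃ ρ : ℝ, 0 < ρ ∧ ∀ x (μ : ℂ), (R x - μ • (1 : Matrix (Fin N) (Fin N) ℂ)).det = 0 →
      ‖μ‖ ^ 2 < 2 * ρ * |μ.im| := by
  have hS : Continuous fun x => ∑ i, ∑ j, ‖R x i j‖ :=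
    continuous_finsetSum _ fun i _ => continuous_finsetSum _ fun j _ => (hR.matrix_elem i j).norm
  obtain ⟨B, hB⟩ := isCompact_univ.exists_bound_of_continuousOn hS.continuousOn
  have hB' : ∀ x, ∑ i, ∑ j, ‖R x i j‖ ≤ B := fun x =>
    (le_abs_self _).trans (hB x (Set.mem_univ x))
  obtain ⟨Z, hZ⟩ : ∃ Z : Set (X × ℂ),
      Z = {p | (R p.1 - p.2 • (1 : Matrix (Fin N) (Fin N) ℂ)).det = 0} := ⟨_, rfl⟩
  have hdet : Continuous fun p : X × ℂ => (R p.1 - p.2 • (1 : Matrix (Fin N) (Fin N) ℂ)).det :=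
    ((hR.comp continuous_fst).sub (continuous_snd.smul continuous_const)).matrix_det
  have hZc : IsClosed Z := by
    rw [hZ]
    exact isClosed_singleton.preimage hdet
  have hZK : IsCompact Z := by
    refine ((isCompact_univ (X := X)).prod (isCompact_closedBall (0 : ℂ) B)).of_isClosed_subset
      hZc ?_
    rintro ⟨x, μ⟩ hp
    rw [hZ] at hp
    refine ⟨Set.mem_univ _, ?_⟩
    rw [mem_closedBall_zero_iff]
    exact (exists_radius_eig (R x) μ hp).trans (hB' x)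
  have him : ∀ x (μ : ℂ), (R x - μ • (1 : Matrix (Fin N) (Fin N) ℂ)).det = 0 → μ.im ≠ 0 := by
    intro x μ h h0
    refine hno x μ.re ?_
    have : (μ.re : ℂ) = μ := Complex.ext (by simp) (by simp [h0])
    rw [this]
    exact h
  have hcont : ContinuousOn (fun p : X × ℂ => ‖p.2‖ ^ 2 / |p.2.im|) Z := by
    refine ContinuousOn.div (by fun_prop) (by fun_prop) ?_
    rintro ⟨x, μ⟩ hp
    rw [hZ] at hp
    exact abs_ne_zero.2 (him x μ hp)
  obtain ⟨C, hC⟩ := hZK.exists_bound_of_continuousOn hcont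
  refine ⟨(|C| + 1) / 2, by positivity, ?_⟩
  intro x μ h
  have h1 : (x, μ) ∈ Z := by
    rw [hZ]
    exact h
  have h2 := hC (x, μ) h1
  have h3 : 0 < |μ.im| := abs_pos.2 (him x μ h)
  have h4 : ‖μ‖ ^ 2 / |μ.im| ≤ |C| := (le_abs_self _).trans (h2.trans (le_abs_self C))
  rw [div_le_iff₀ h3] at h4
  calc ‖μ‖ ^ 2 ≤ |C| * |μ.im| := h4
    _ < (|C| + 1) * |μ.im| := by nlinarith
    _ = 2 * ((|C| + 1) / 2) * |μ.im| := by ring

end Pool.Agent.Helper672.Lv.J27085
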