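import Mathlib
import Pool.Agent.Helper672.Lv.EcDef

set_option autoImplicit false

namespace Pool.Agent.Helper672.Lv.J27086


open Matrix in
theorem Ec_resolvent_h687 {N : ℕ} (R : Matrix (Fin N) (Fin N) ℂ) (μ z : ℂ) (hz : z ≠ μ)
    (hdet : (z • (1 : Matrix (Fin N) (Fin N) ℂ) - R).det ≠ 0) (k : ℕ) (u : Fin N → ℂ)
    (hu : ((R - μ • (1 : Matrix (Fin N) (Fin N) ℂ)) ^ k).mulVec u = 0) :
    (z • (1 : Matrix (Fin N) (Fin N) ℂ) - R)⁻¹ *ᵥ u =
      ∑ l ∈ Finset.range k, (z - μ) ^ (-((l : ℤ) + 1)) •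
        (((R - μ • (1 : Matrix (Fin N) (Fin N) ℂ)) ^ l) *ᵥ u) := by
  set D := R - μ • (1 : Matrix (Fin N) (Fin N) ℂ) with hD
  set A := z • (1 : Matrix (Fin N) (Fin N) ℂ) - R with hA
  have hAD : A = (z - μ) • (1 : Matrix (Fin N) (Fin N) ℂ) - D := by
    rw [hA, hD, sub_smul]
    abel
  have hne : z - μ ≠ 0 := sub_ne_zero.2 hz
  have h1 : A *ᵥ (∑ l ∈ Finset.range k, (z - μ) ^ (-((l : ℤ) + 1)) • ((D ^ l) *ᵥ u)) = u := by
    rw [Matrix.mulVec_sum]
    have h2 : ∀ l ∈ Finset.range k, A *ᵥ ((z - μ) ^ (-((l : ℤ) + 1)) • ((D ^ l) *ᵥ u)) =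
        (z - μ) ^ (-(l : ℤ)) • ((D ^ l) *ᵥ u) -
          (z - μ) ^ (-((l + 1 : ℕ) : ℤ)) • ((D ^ (l + 1)) *ᵥ u) := by
      intro l _
      rw [Matrix.mulVec_smul, hAD, Matrix.sub_mulVec, Matrix.smul_mulVec, Matrix.one_mulVec,
        Matrix.mulVec_mulVec, ← pow_succ', smul_sub, smul_smul]
      congr 2
      · rw [← zpow_add_one₀ hne]
        congr 1
        ring
    rw [Finset.sum_congr rfl h2]
    rw [Finset.sum_range_sub' (fun l : ℕ => (z - μ) ^ (-(l : ℤ)) • ((D ^ l) *ᵥ u)) k]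
    simp only [Nat.cast_zero, neg_zero, zpow_zero, pow_zero, Matrix.one_mulVec, one_smul, hu,
      smul_zero, sub_zero]
  have hunit : IsUnit A.det := isUnit_iff_ne_zero.2 hdet
  calc A⁻¹ *ᵥ u = A⁻¹ *ᵥ (A *ᵥ (∑ l ∈ Finset.range k, (z - μ) ^ (-((l : ℤ) + 1)) •
        ((D ^ l) *ᵥ u))) := by rw [h1]
    _ = _ := by rw [Matrix.mulVec_mulVec, Matrix.nonsing_inv_mul A hunit, Matrix.one_mulVec]

open Matrix in
theorem Ec_common_h687 {N : ℕ} {ρ : ℝ} (hρ : 0 < ρ) (R : Matrix (Fin N) (Fin N) ℂ)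
    (hc : ∀ z : ℂ, ‖z - (ρ : ℂ) * Complex.I‖ = ρ →
      (z • (1 : Matrix (Fin N) (Fin N) ℂ) - R).det ≠ 0)
    (μ : ℂ) (hμ : ‖μ - (ρ : ℂ) * Complex.I‖ ≠ ρ) (k : ℕ) (u : Fin N → ℂ)
    (hu : ((R - μ • (1 : Matrix (Fin N) (Fin N) ℂ)) ^ k).mulVec u = 0) :
    (Ec ρ R).mulVec u = ((2 * Real.pi * Complex.I : ℂ)⁻¹ *
      circleIntegral (fun z => (z - μ)⁻¹) ((ρ : ℂ) * Complex.I) ρ) • u := by
  set D := R - μ • (1 : Matrix (Fin N) (Fin N) ℂ) with hD
  have hu1 : (D ^ (k + 1)).mulVec u = 0 := by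
    rw [pow_succ', ← Matrix.mulVec_mulVec, hu, Matrix.mulVec_zero]
  have hsph : ∀ z ∈ Metric.sphere ((ρ : ℂ) * Complex.I) ρ,
      (z • (1 : Matrix (Fin N) (Fin N) ℂ) - R).det ≠ 0 := by
    intro z hz
    rw [mem_sphere_iff_norm] at hz
    exact hc z hz
  have hzμ : ∀ z ∈ Metric.sphere ((ρ : ℂ) * Complex.I) ρ, z ≠ μ := by
    rintro z hz rfl
    rw [mem_sphere_iff_norm] at hz
    exact hμ hz
  have hcA : Continuous (fun z : ℂ => z • (1 : Matrix (Fin N) (Fin N) ℂ) - R) := by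
    fun_prop
  have hcent : ∀ i j, ContinuousOn
      (fun z : ℂ => ((z • (1 : Matrix (Fin N) (Fin N) ℂ) - R)⁻¹) i j)
      (Metric.sphere ((ρ : ℂ) * Complex.I) ρ) := by
    intro i j
    have h1 : ∀ z : ℂ, ((z • (1 : Matrix (Fin N) (Fin N) ℂ) - R)⁻¹) i j =
        ((z • (1 : Matrix (Fin N) (Fin N) ℂ) - R).det)⁻¹ *
          (z • (1 : Matrix (Fin N) (Fin N) ℂ) - R).adjugate i j := by
      intro z
      rw [Matrix.inv_def, Matrix.smul_apply, Ring.inverse_eq_inv', smul_eq_mul]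
    simp only [h1]
    apply ContinuousOn.mul
    · exact ContinuousOn.inv₀ (hcA.matrix_det).continuousOn hsph
    · exact ((hcA.matrix_adjugate).matrix_elem i j).continuousOn
  have hint : ∀ i j, CircleIntegrable
      (fun z : ℂ => ((z • (1 : Matrix (Fin N) (Fin N) ℂ) - R)⁻¹) i j) ((ρ : ℂ) * Complex.I) ρ :=
    fun i j => (hcent i j).circleIntegrable hρ.le
  have hint2 : ∀ l : ℕ, CircleIntegrable
      (fun z : ℂ => (z - μ) ^ (-((l : ℤ) + 1))) ((ρ : ℂ) * Complex.I) ρ := by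
    intro l
    apply ContinuousOn.circleIntegrable hρ.le
    apply ContinuousOn.zpow₀
    · fun_prop
    · intro z hz
      exact Or.inl (sub_ne_zero.2 (hzμ z hz))
  funext i
  have e1 : ((Ec ρ R).mulVec u) i = (2 * Real.pi * Complex.I : ℂ)⁻¹ *
      circleIntegral (fun z => (((z • (1 : Matrix (Fin N) (Fin N) ℂ) - R)⁻¹) *ᵥ u) i)
        ((ρ : ℂ) * Complex.I) ρ := by
    have e2 : (fun z : ℂ => (((z • (1 : Matrix (Fin N) (Fin N) ℂ) - R)⁻¹) *ᵥ u) i) =
        fun z : ℂ => ∑ j, u j * ((z • (1 : Matrix (Fin N) (Fin N) ℂ) - R)⁻¹) i j := by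
      funext z
      simp only [Matrix.mulVec, dotProduct]
      exact Finset.sum_congr rfl (fun j _ => mul_comm _ _)
    rw [e2, circleIntegral.integral_fun_sum (fun j _ => by
      have := (hint i j).const_smul (a := u j)
      exact this)]
    simp only [circleIntegral.integral_const_mul]
    simp only [Matrix.mulVec, dotProduct, Ec, Finset.mul_sum]
    exact Finset.sum_congr rfl (fun j _ => by ring)
  have e3 : circleIntegral (fun z => (((z • (1 : Matrix (Fin N) (Fin N) ℂ) - R)⁻¹) *ᵥ u) i)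
        ((ρ : ℂ) * Complex.I) ρ =
      circleIntegral (fun z => ∑ l ∈ Finset.range (k + 1),
        ((D ^ l) *ᵥ u) i * (z - μ) ^ (-((l : ℤ) + 1))) ((ρ : ℂ) * Complex.I) ρ := by
    apply circleIntegral.integral_congr hρ.le
    intro z hz
    simp only
    rw [Ec_resolvent_h687 R μ z (hzμ z hz) (hsph z hz) (k + 1) u hu1, Finset.sum_apply]
    exact Finset.sum_congr rfl (fun l _ => by rw [Pi.smul_apply, smul_eq_mul, mul_comm])
  rw [e1, e3, circleIntegral.integral_fun_sum (fun l _ => by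
    have := (hint2 l).const_smul (a := ((D ^ l) *ᵥ u) i)
    exact this)]
  simp only [circleIntegral.integral_const_mul]
  rw [Finset.sum_eq_single 0]
  · rw [Pi.smul_apply, smul_eq_mul, pow_zero, Matrix.one_mulVec]
    have e4 : (fun z : ℂ => (z - μ) ^ (-(((0 : ℕ) : ℤ) + 1))) = fun z => (z - μ)⁻¹ := by
      funext z
      simp
    rw [e4]
    ring
  · intro l _ hl
    rw [circleIntegral.integral_sub_zpow_of_ne (by omega), mul_zero]
  · intro h
    exact absurd (Finset.mem_range.2 (Nat.succ_pos k)) h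

/-- the contour integral is the identity on generalised eigenvectors inside the circle. -/
theorem Ec_inside {N : ℕ} {ρ : ℝ} (hρ : 0 < ρ) (R : Matrix (Fin N) (Fin N) ℂ)
    (hc : ∀ z : ℂ, ‖z - (ρ : ℂ) * Complex.I‖ = ρ →
      (z • (1 : Matrix (Fin N) (Fin N) ℂ) - R).det ≠ 0)
    (μ : ℂ) (hμ : ‖μ - (ρ : ℂ) * Complex.I‖ < ρ) (k : ℕ) (u : Fin N → ℂ)
    (hu : ((R - μ • (1 : Matrix (Fin N) (Fin N) ℂ)) ^ k).mulVec u = 0) :
    (Ec ρ R).mulVec u = u := by
  rw [Ec_common_h687 hρ R hc μ hμ.ne k u hu]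
  have h1 : circleIntegral (fun z => (z - μ)⁻¹) ((ρ : ℂ) * Complex.I) ρ =
      2 * Real.pi * Complex.I :=
    circleIntegral.integral_sub_inv_of_mem_ball (by rw [mem_ball_iff_norm]; exact hμ)
  rw [h1, inv_mul_cancel₀, one_smul]
  have := Real.pi_pos.ne'
  simp [Complex.I_ne_zero, this]

/-- the contour integral vanishes on generalised eigenvectors outside the circle. -/
theorem Ec_outside {N : ℕ} {ρ : ℝ} (hρ : 0 < ρ) (R : Matrix (Fin N) (Fin N) ℂ)
    (hc : ∀ z : ℂ, ‖z - (ρ : ℂ) * Complex.I‖ = ρ →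
      (z • (1 : Matrix (Fin N) (Fin N) ℂ) - R).det ≠ 0)
    (μ : ℂ) (hμ : ρ < ‖μ - (ρ : ℂ) * Complex.I‖) (k : ℕ) (u : Fin N → ℂ)
    (hu : ((R - μ • (1 : Matrix (Fin N) (Fin N) ℂ)) ^ k).mulVec u = 0) :
    (Ec ρ R).mulVec u = 0 := by
  rw [Ec_common_h687 hρ R hc μ hμ.ne' k u hu]
  have hne : ∀ z ∈ Metric.closedBall ((ρ : ℂ) * Complex.I) ρ, z - μ ≠ 0 := by
    intro z hz h
    rw [sub_eq_zero] at h
    subst h
    rw [mem_closedBall_iff_norm] at hz
    linarith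
  have h1 : circleIntegral (fun z => (z - μ)⁻¹) ((ρ : ℂ) * Complex.I) ρ = 0 := by
    apply Complex.circleIntegral_eq_zero_of_differentiable_on_off_countable hρ.le
      Set.countable_empty
    · apply ContinuousOn.inv₀
      · fun_prop
      · exact hne
    · intro z hz
      apply DifferentiableAt.inv
      · fun_prop
      · exact hne z (Metric.ball_subset_closedBall hz.1)
  rw [h1, mul_zero, zero_smul]

end Pool.Agent.Helper672.Lv.J27086
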