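import Mathlib
import Pool.Agent.Helper672.Lv.EcDef

set_option autoImplicit false

namespace Pool.Agent.Helper672.Lv.J27087


/-- the contour integral depends continuously on the parameter. -/
theorem Ec_continuous {X : Type*} [TopologicalSpace X] {N : ℕ} {ρ : ℝ} (hρ : 0 < ρ)
    (R : X → Matrix (Fin N) (Fin N) ℂ) (hR : Continuous R)
    (hc : ∀ x, ∀ z : ℂ, ‖z - (ρ : ℂ) * Complex.I‖ = ρ →
      (z • (1 : Matrix (Fin N) (Fin N) ℂ) - R x).det ≠ 0) :
    Continuous fun x => Ec ρ (R x) := by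
  refine continuous_pi fun i => continuous_pi fun j => ?_
  unfold Ec
  refine continuous_const.mul ?_
  unfold circleIntegral
  have hA : Continuous fun p : X × ℝ =>
      (circleMap ((ρ : ℂ) * Complex.I) ρ p.2) • (1 : Matrix (Fin N) (Fin N) ℂ) - R p.1 :=
    ((((continuous_circleMap _ _).comp continuous_snd).smul continuous_const).sub
      (hR.comp continuous_fst))
  have hdet : ∀ p : X × ℝ, ((circleMap ((ρ : ℂ) * Complex.I) ρ p.2) •
      (1 : Matrix (Fin N) (Fin N) ℂ) - R p.1).det ≠ 0 := by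
    intro p
    apply hc
    rw [circleMap_sub_center, norm_circleMap_zero, abs_of_pos hρ]
  have hinv : Continuous fun p : X × ℝ =>
      (((circleMap ((ρ : ℂ) * Complex.I) ρ p.2) • (1 : Matrix (Fin N) (Fin N) ℂ) - R p.1)⁻¹) i j := by
    have h1 : (fun p : X × ℝ =>
      (((circleMap ((ρ : ℂ) * Complex.I) ρ p.2) • (1 : Matrix (Fin N) (Fin N) ℂ) - R p.1)⁻¹) i j) =
      fun p : X × ℝ => (((circleMap ((ρ : ℂ) * Complex.I) ρ p.2) •
        (1 : Matrix (Fin N) (Fin N) ℂ) - R p.1).det)⁻¹ *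
        (((circleMap ((ρ : ℂ) * Complex.I) ρ p.2) •
        (1 : Matrix (Fin N) (Fin N) ℂ) - R p.1).adjugate) i j := by
      funext p
      rw [Matrix.inv_def, Ring.inverse_eq_inv']
      rfl
    rw [h1]
    exact (hA.matrix_det.inv₀ hdet).mul ((hA.matrix_adjugate).matrix_elem i j)
  have hder : Continuous fun p : X × ℝ => deriv (circleMap ((ρ : ℂ) * Complex.I) ρ) p.2 := by
    simp only [deriv_circleMap]
    exact ((continuous_circleMap _ _).comp continuous_snd).mul continuous_const
  exact intervalIntegral.continuous_parametric_intervalIntegral_of_continuous' 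
    (f := fun x θ => deriv (circleMap ((ρ : ℂ) * Complex.I) ρ) θ •
      (((circleMap ((ρ : ℂ) * Complex.I) ρ θ) • (1 : Matrix (Fin N) (Fin N) ℂ) - R x)⁻¹) i j)
    (hder.smul hinv) 0 (2 * Real.pi)

end Pool.Agent.Helper672.Lv.J27087
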