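import Mathlib

set_option autoImplicit false

namespace Pool.Agent.Helper672.Lv.J27088

/-- two matrices which agree on all generalised eigenvectors of `R` are equal. -/
theorem ext_genEigen {N : ℕ} (R A B : Matrix (Fin N) (Fin N) ℂ)
    (h : ∀ (μ : ℂ) (k : ℕ) (u : Fin N → ℂ),
      ((R - μ • (1 : Matrix (Fin N) (Fin N) ℂ)) ^ k).mulVec u = 0 →
      (R - μ • (1 : Matrix (Fin N) (Fin N) ℂ)).det = 0 → A.mulVec u = B.mulVec u) :
    A = B := by
  have key : ∀ (μ : ℂ) (k : ℕ) (u : Fin N → ℂ),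
      ((R - μ • (1 : Matrix (Fin N) (Fin N) ℂ)) ^ k).mulVec u = 0 → A.mulVec u = B.mulVec u := by
    intro μ k u hu
    by_cases hd : (R - μ • (1 : Matrix (Fin N) (Fin N) ℂ)).det = 0
    · exact h μ k u hu hd
    · have h0 : u = 0 := by
        refine Matrix.eq_zero_of_mulVec_eq_zero ?_ hu
        rw [Matrix.det_pow]
        exact pow_ne_zero k hd
      rw [h0, Matrix.mulVec_zero, Matrix.mulVec_zero]
  have hle : (⊤ : Submodule ℂ (Fin N → ℂ)) ≤
      LinearMap.eqLocus (Matrix.toLinAlgEquiv' A) (Matrix.toLinAlgEquiv' B) := by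
    rw [← Module.End.iSup_maxGenEigenspace_eq_top
      (Matrix.toLinAlgEquiv' R : Module.End ℂ (Fin N → ℂ))]
    refine iSup_le fun μ => ?_
    intro u hu
    rw [Module.End.mem_maxGenEigenspace] at hu
    obtain ⟨k, hk⟩ := hu
    have e : ((Matrix.toLinAlgEquiv' R : Module.End ℂ (Fin N → ℂ)) - μ • 1) ^ k =
        Matrix.toLinAlgEquiv' ((R - μ • (1 : Matrix (Fin N) (Fin N) ℂ)) ^ k) := by
      rw [map_pow, map_sub, map_smul, map_one]
    rw [e, Matrix.toLinAlgEquiv'_apply] at hk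
    rw [LinearMap.mem_eqLocus, Matrix.toLinAlgEquiv'_apply, Matrix.toLinAlgEquiv'_apply]
    exact key μ k u hk
  apply Matrix.toLinAlgEquiv'.injective
  refine LinearMap.ext fun u => ?_
  exact LinearMap.mem_eqLocus.1 (hle (Submodule.mem_top (x := u)))

end Pool.Agent.Helper672.Lv.J27088
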