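import Mathlib

set_option autoImplicit false

namespace Pool.Agent.Helper672.Lv.J27089

/-- transport of a continuous family of idempotents along an interval. -/
theorem exists_transport {K : Type*} [TopologicalSpace K] [CompactSpace K] {N : ℕ}
    (P : ℝ → K → Matrix (Fin N) (Fin N) ℂ) (hP : Continuous (fun p : ℝ × K => P p.1 p.2))
    (hid : ∀ t x, P t x * P t x = P t x) (P₀ : Matrix (Fin N) (Fin N) ℂ)
    (h0 : ∀ x, P 0 x = P₀) :
    ∃ g : K → Matrix (Fin N) (Fin N) ℂ, Continuous g ∧ (∀ x, (g x).det ≠ 0) ∧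
      ∀ x, g x * P₀ = P 1 x * g x := by
  obtain ⟨U, hU⟩ : ∃ U : ℝ → ℝ → K → Matrix (Fin N) (Fin N) ℂ,
      U = fun t s x => P t x * P s x + (1 - P t x) * (1 - P s x) := ⟨_, rfl⟩
  have hUP : ∀ t s x, U t s x * P s x = P t x * U t s x := by
    intro t s x
    have h1 : U t s x * P s x = P t x * P s x := by
      rw [hU]
      show (P t x * P s x + (1 - P t x) * (1 - P s x)) * P s x = _
      have hq1 : (1 - P s x) * P s x = 0 := by rw [sub_mul, one_mul, hid, sub_self]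
      rw [add_mul, mul_assoc, hid, mul_assoc, hq1, mul_zero, add_zero]
    have h2 : P t x * U t s x = P t x * P s x := by
      rw [hU]
      show P t x * (P t x * P s x + (1 - P t x) * (1 - P s x)) = _
      have hq2 : P t x * (1 - P t x) = 0 := by rw [mul_sub, mul_one, hid, sub_self]
      rw [mul_add, ← mul_assoc, hid, ← mul_assoc, hq2, zero_mul, add_zero]
    rw [h1, h2]
  have hUt : ∀ t x, U t t x = 1 := by
    intro t x
    rw [hU]
    show P t x * P t x + (1 - P t x) * (1 - P t x) = 1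
    rw [mul_sub, mul_one, sub_mul, one_mul, hid, sub_self, sub_zero]
    abel
  have hUc : Continuous fun p : ℝ × ℝ × K => U p.1 p.2.1 p.2.2 := by
    rw [hU]
    have h1 : Continuous fun p : ℝ × ℝ × K => P p.1 p.2.2 :=
      hP.comp (continuous_fst.prodMk (continuous_snd.comp continuous_snd))
    have h2 : Continuous fun p : ℝ × ℝ × K => P p.2.1 p.2.2 :=
      hP.comp ((continuous_fst.comp continuous_snd).prodMk (continuous_snd.comp continuous_snd))
    exact (h1.mul h2).add ((continuous_const.sub h1).mul (continuous_const.sub h2))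
  have hUx : ∀ t s, Continuous (U t s) := by
    intro t s
    exact hUc.comp (continuous_const.prodMk (continuous_const.prodMk continuous_id))
  obtain ⟨δ, hδ, hδ'⟩ : ∃ δ : ℝ, 0 < δ ∧ ∀ t ∈ Set.Icc (0 : ℝ) 1, ∀ s ∈ Set.Icc (0 : ℝ) 1,
      ∀ x, |t - s| < δ → (U t s x).det ≠ 0 := by
    have hD : IsCompact ((Set.Icc (0 : ℝ) 1 ×ˢ (Set.Icc (0 : ℝ) 1 ×ˢ (Set.univ : Set K))) ∩
        {p : ℝ × ℝ × K | (U p.1 p.2.1 p.2.2).det = 0}) :=
      (isCompact_Icc.prod (isCompact_Icc.prod isCompact_univ)).inter_right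
        (isClosed_eq hUc.matrix_det continuous_const)
    rcases Set.eq_empty_or_nonempty ((Set.Icc (0 : ℝ) 1 ×ˢ (Set.Icc (0 : ℝ) 1 ×ˢ
        (Set.univ : Set K))) ∩ {p : ℝ × ℝ × K | (U p.1 p.2.1 p.2.2).det = 0}) with he | hne
    · refine ⟨1, one_pos, fun t ht s hs x _ hdet => ?_⟩
      have : ((t, s, x) : ℝ × ℝ × K) ∈ ((Set.Icc (0 : ℝ) 1 ×ˢ (Set.Icc (0 : ℝ) 1 ×ˢ
        (Set.univ : Set K))) ∩ {p : ℝ × ℝ × K | (U p.1 p.2.1 p.2.2).det = 0}) :=
        ⟨⟨ht, hs, Set.mem_univ _⟩, hdet⟩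
      rw [he] at this
      exact this
    · have hfc : Continuous fun p : ℝ × ℝ × K => |p.1 - p.2.1| :=
        (continuous_fst.sub (continuous_fst.comp continuous_snd)).abs
      obtain ⟨q, hq, hmin⟩ := hD.exists_isMinOn hne hfc.continuousOn
      refine ⟨|q.1 - q.2.1|, abs_pos.2 fun h1 => ?_, fun t ht s hs x hts hdet => ?_⟩
      · have h2 : q.1 = q.2.1 := sub_eq_zero.1 h1
        have h3 : (U q.1 q.2.1 q.2.2).det = 0 := hq.2
        rw [← h2, hUt, Matrix.det_one] at h3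
        exact one_ne_zero h3
      · have h1 : |q.1 - q.2.1| ≤ |t - s| :=
          hmin (show ((t, s, x) : ℝ × ℝ × K) ∈ _ from ⟨⟨ht, hs, Set.mem_univ _⟩, hdet⟩)
        linarith
  obtain ⟨n, hn⟩ := exists_nat_one_div_lt hδ
  have hm : (0 : ℝ) < (n : ℝ) + 1 := by positivity
  have key : ∀ k : ℕ, k ≤ n + 1 → ∃ g : K → Matrix (Fin N) (Fin N) ℂ, Continuous g ∧
      (∀ x, (g x).det ≠ 0) ∧ ∀ x, g x * P₀ = P ((k : ℝ) / ((n : ℝ) + 1)) x * g x := by
    intro k
    induction k with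
    | zero =>
      intro _
      refine ⟨fun _ => 1, continuous_const, fun x => by rw [Matrix.det_one]; exact one_ne_zero,
        fun x => ?_⟩
      rw [Nat.cast_zero, zero_div, h0, one_mul, mul_one]
    | succ k ih =>
      intro hk
      obtain ⟨g, hg, hdet, hcomm⟩ := ih (by omega)
      have hk1 : ((k + 1 : ℕ) : ℝ) ≤ (n : ℝ) + 1 := by exact_mod_cast hk
      have hk2 : (k : ℝ) ≤ (n : ℝ) + 1 := by push_cast at hk1; linarith
      have ht : ((k + 1 : ℕ) : ℝ) / ((n : ℝ) + 1) ∈ Set.Icc (0 : ℝ) 1 :=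
        ⟨by positivity, (div_le_one hm).2 hk1⟩
      have hs : (k : ℝ) / ((n : ℝ) + 1) ∈ Set.Icc (0 : ℝ) 1 :=
        ⟨by positivity, (div_le_one hm).2 hk2⟩
      have hts : |((k + 1 : ℕ) : ℝ) / ((n : ℝ) + 1) - (k : ℝ) / ((n : ℝ) + 1)| < δ := by
        have h1 : ((k + 1 : ℕ) : ℝ) / ((n : ℝ) + 1) - (k : ℝ) / ((n : ℝ) + 1) =
            1 / ((n : ℝ) + 1) := by push_cast; ring
        rw [h1, abs_of_pos (by positivity)]
        exact hn
      refine ⟨fun x => U (((k + 1 : ℕ) : ℝ) / ((n : ℝ) + 1)) ((k : ℝ) / ((n : ℝ) + 1)) x * g x,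
        (hUx _ _).mul hg, fun x => ?_, fun x => ?_⟩
      · rw [Matrix.det_mul]
        exact mul_ne_zero (hδ' _ ht _ hs x hts) (hdet x)
      · rw [mul_assoc, hcomm x, ← mul_assoc, hUP, mul_assoc]
  obtain ⟨g, hg, hdet, hcomm⟩ := key (n + 1) le_rfl
  refine ⟨g, hg, hdet, fun x => ?_⟩
  have h1 : (((n + 1 : ℕ) : ℝ)) / ((n : ℝ) + 1) = 1 := by
    push_cast
    exact div_self hm.ne'
  rw [hcomm x, h1]

end Pool.Agent.Helper672.Lv.J27089
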