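import Pool.Agent.Helper672.Lv.Base

set_option autoImplicit false

namespace Pool.Agent.Helper672.Lv.J27207

open Set Topology Pool.Agent.Helper775.Tight Pool.Agent.Helper775.Tight.SoftCx



theorem ppx_mono {M a b : ℕ} (hab : a ≤ b) : PP M a ⊆ PP M b := by
  rintro _ ⟨x, hx, rfl⟩
  exact ⟨x, ⟨hx.1, fun i hi => hx.2 i (hab.trans hi)⟩, rfl⟩

theorem ppx_union {M k : ℕ} (hk : k < M) : PA M k hk ∪ PB M k hk = PP M (k + 1) := by
  ext P
  constructor
  · rintro (h | h)
    · exact h.1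
    · exact h.1
  · intro h
    rcases le_total (1 / 2) (P ⟨k, hk⟩ ⟨k, hk⟩) with h1 | h1
    · exact Or.inl ⟨h, h1⟩
    · exact Or.inr ⟨h, h1⟩

theorem ppx_closedA {M k : ℕ} (hk : k < M) : IsClosed (PA M k hk) := by
  have e : PA M k hk = PP M (k + 1) ∩ {P | 1 / 2 ≤ P ⟨k, hk⟩ ⟨k, hk⟩} := rfl
  rw [e]
  refine (PP_compact M (k + 1)).isClosed.inter (isClosed_le continuous_const ?_)
  fun_prop

theorem ppx_closedB {M k : ℕ} (hk : k < M) : IsClosed (PB M k hk) := by
  have e : PB M k hk = PP M (k + 1) ∩ {P | P ⟨k, hk⟩ ⟨k, hk⟩ ≤ 1 / 2} := rfl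
  rw [e]
  refine (PP_compact M (k + 1)).isClosed.inter (isClosed_le ?_ continuous_const)
  fun_prop

theorem ppx_one {M : ℕ} (hM : 1 ≤ M) : ∃ P : W M, PP M 1 = {P} := by
  obtain ⟨x0, hx0⟩ := xa_sp_nonempty (M := M) (k := 1) le_rfl hM
  refine ⟨v M x0, ?_⟩
  have key : ∀ x ∈ Sp M 1, ∀ i j : Fin M, v M x i j = if (i.val = 0 ∧ j.val = 0) then 1 else 0 := by
    intro x hx i j
    have hsq : ∑ i, (x i) ^ 2 = 1 := by
      have h1 := EuclideanSpace.norm_sq_eq x
      rw [hx.1, one_pow] at h1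
      rw [h1]
      refine Finset.sum_congr rfl fun i _ => ?_
      rw [Real.norm_eq_abs, sq_abs]
    have hsq2 : (x ⟨0, hM⟩) ^ 2 = 1 := by
      rw [← hsq]
      symm
      apply Finset.sum_eq_single
      · intro b _ hb
        rw [hx.2 b (by
          rcases Nat.eq_zero_or_pos b.val with h | h
          · exact absurd (Fin.ext h) hb
          · exact h)]
        norm_num
      · intro h
        exact absurd (Finset.mem_univ _) h
    show x i * x j = _
    by_cases hi : i.val = 0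
    · by_cases hj : j.val = 0
      · rw [if_pos ⟨hi, hj⟩]
        have ei : i = ⟨0, hM⟩ := Fin.ext hi
        have ej : j = ⟨0, hM⟩ := Fin.ext hj
        rw [ei, ej, ← sq]
        exact hsq2
      · rw [if_neg (fun h => hj h.2), hx.2 j (Nat.one_le_iff_ne_zero.mpr hj), mul_zero]
    · rw [if_neg (fun h => hi h.1), hx.2 i (Nat.one_le_iff_ne_zero.mpr hi), zero_mul]
  ext P
  rw [mem_singleton_iff]
  constructor
  · rintro ⟨x, hx, rfl⟩
    funext i j
    rw [key x hx, key x0 hx0]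
  · intro h
    rw [h]
    exact ⟨x0, hx0, rfl⟩

/-- real projective space of dimension `k - 1` has no cohomology in degrees `≥ k`. -/
theorem pp_ex_of {M : ℕ}
    (HA : ∀ (k : ℕ) (hk : k < M), (AS (W M)).Acy one (PA M k hk))
    (HAB : ∀ (k : ℕ) (hk : k < M), 1 ≤ k → ∀ n : ℕ, 2 ≤ n → n ≠ k →
      (AS (W M)).Ex (PA M k hk ∩ PB M k hk) n)
    (HB : ∀ (k : ℕ) (hk : k < M), 1 ≤ k → ∀ (n : ℕ) (c : Ch (W M)),
      (AS (W M)).Coc (PB M k hk) n c → (AS (W M)).Cob (PP M k) n c →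
      (AS (W M)).Cob (PB M k hk) n c)
    {k : ℕ} (h1 : 1 ≤ k) (hkM : k ≤ M) (n : ℕ) (hn : k + 1 ≤ n) :
    (AS (W M)).Ex (PP M k) n := by
  induction k, h1 using Nat.le_induction generalizing n with
  | base =>
    obtain ⟨P, hP⟩ := ppx_one hkM
    rw [hP]
    exact (acy_singleton P).2.2 n hn
  | succ k hk ih =>
    intro c hc
    obtain ⟨n', rfl⟩ : ∃ n', n = n' + 1 := ⟨n - 1, by omega⟩
    have hkM' : k < M := hkM
    have hsub : PP M k ⊆ PP M (k + 1) := ppx_mono (Nat.le_succ k)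
    rw [← ppx_union hkM'] at hc ⊢
    refine mv (ppx_closedA hkM') (ppx_closedB hkM')
      (HAB k hkM' hk n' (by omega) (by omega)) ?_ ?_
    · exact (HA k hkM').2.2 (n' + 1) (by omega) c (hc.mono subset_union_left)
    · refine HB k hkM' hk (n' + 1) c (hc.mono subset_union_right) ?_
      refine ih hkM'.le (n' + 1) (by omega) c ?_
      rw [ppx_union hkM'] at hc
      exact hc.mono hsub

/-- injectivity of restriction to a projective subspace of dimension `m` in degree `m`. -/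
theorem pp_inj_of {M : ℕ}
    (HA : ∀ (k : ℕ) (hk : k < M), (AS (W M)).Acy one (PA M k hk))
    (HAB : ∀ (k : ℕ) (hk : k < M), 1 ≤ k → ∀ n : ℕ, 2 ≤ n → n ≠ k →
      (AS (W M)).Ex (PA M k hk ∩ PB M k hk) n)
    (HB : ∀ (k : ℕ) (hk : k < M), 1 ≤ k → ∀ (n : ℕ) (c : Ch (W M)),
      (AS (W M)).Coc (PB M k hk) n c → (AS (W M)).Cob (PP M k) n c →
      (AS (W M)).Cob (PB M k hk) n c)
    {m : ℕ} (hm : 2 ≤ m) (hM : m + 1 ≤ M) {c : Ch (W M)}
    (hc : (AS (W M)).Coc (PP M M) (m + 1) c) (h : (AS (W M)).Cob (PP M (m + 1)) (m + 1) c) :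
    (AS (W M)).Cob (PP M M) (m + 1) c := by
  have key : ∀ k, m + 1 ≤ k → k ≤ M → (AS (W M)).Cob (PP M k) (m + 1) c := by
    intro k hk
    induction k, hk using Nat.le_induction with
    | base => exact fun _ => h
    | succ k hk ih =>
      intro hkM
      have hkM' : k < M := hkM
      have hc' : (AS (W M)).Coc (PA M k hkM' ∪ PB M k hkM') (m + 1) c := by
        rw [ppx_union hkM']
        exact hc.mono (ppx_mono hkM)
      rw [← ppx_union hkM']
      refine mv (ppx_closedA hkM') (ppx_closedB hkM')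
        (HAB k hkM' (by omega) m hm (by omega)) ?_ ?_
      · exact (HA k hkM').2.2 (m + 1) (by omega) c (hc'.mono subset_union_left)
      · exact HB k hkM' (by omega) (m + 1) c (hc'.mono subset_union_right) (ih hkM'.le)
  exact key M hM le_rfl

end Pool.Agent.Helper672.Lv.J27207
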