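import Pool.Agent.Helper672.Lv.Base

set_option autoImplicit false

namespace Pool.Agent.Helper672.Lv.J27208

open Set Topology Pool.Agent.Helper775.Tight Pool.Agent.Helper775.Tight.SoftCx



/-- pullback of a top degree class of projective space to the sphere vanishes mod 2. -/
theorem pstar_zero_of {M : ℕ}
    (HPE : ∀ k : ℕ, 1 ≤ k → k ≤ M → ∀ n : ℕ, k + 1 ≤ n → (AS (W M)).Ex (PP M k) n)
    {k : ℕ} (hk : 3 ≤ k) (hkM : k ≤ M) {c : Ch (W M)}
    (hc : (AS (W M)).Coc (PP M k) k c) : (AS (E M)).Cob (Sp M k) k (pb (v M) c) := by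
  obtain ⟨k, rfl⟩ : ∃ k', k = k' + 1 := ⟨k - 1, by omega⟩
  have hk2 : 2 ≤ k := by omega
  have hkM' : k < M := by omega
  set ng : E M → E M := fun x => -x with hng
  have hngc : ∀ z : E M, ContinuousAt ng z := fun z => continuous_neg.continuousAt
  have hvc : ∀ z : E M, ContinuousAt (v M) z := fun z => (v_continuous M).continuousAt
  have hU : Hm M k hkM' 1 ∪ Hm M k hkM' (-1) = Sp M (k + 1) := by
    ext x
    constructor
    · rintro (h | h)
      · exact h.1
      · exact h.1
    · intro hx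
      rcases le_total 0 (x ⟨k, hkM'⟩) with h | h
      · exact Or.inl ⟨hx, by rw [one_mul]; exact h⟩
      · exact Or.inr ⟨hx, by linarith⟩
  have hI : Hm M k hkM' 1 ∩ Hm M k hkM' (-1) = Sp M k := by
    ext x
    constructor
    · rintro ⟨⟨h1, h2⟩, ⟨-, h3⟩⟩
      refine ⟨h1.1, fun i hi => ?_⟩
      rcases Nat.lt_or_ge k i.val with h | h
      · exact h1.2 i h
      · have : i = ⟨k, hkM'⟩ := Fin.ext (le_antisymm h hi)
        rw [this]
        linarith
    · intro hx
      have h0 : x ⟨k, hkM'⟩ = 0 := hx.2 _ (le_refl k)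
      have h1 : x ∈ Sp M (k + 1) := ⟨hx.1, fun i hi => hx.2 i (by omega)⟩
      exact ⟨⟨h1, by rw [h0]; norm_num⟩, ⟨h1, by rw [h0]; norm_num⟩⟩
  have hsub : Sp M k ⊆ Sp M (k + 1) := fun x hx => ⟨hx.1, fun i hi => hx.2 i (by omega)⟩
  have hAs : Hm M k hkM' 1 ⊆ Sp M (k + 1) := fun x hx => hx.1
  set ct : Ch (E M) := pb (v M) c with hct
  have hctc : (AS (E M)).Coc (Sp M (k + 1)) (k + 1) ct :=
    coc_pb (fun x _ => hvc x) (fun x hx => mem_image_of_mem _ hx) hc
  have hnn : ∀ a : Ch (E M), pb ng (pb ng a) = a := by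
    intro a
    funext l
    simp [pb, hng, Function.comp_def]
  have hnv : ∀ a : Ch (W M), pb ng (pb (v M) a) = pb (v M) a := by
    intro a
    funext l
    simp only [pb, List.map_map]
    congr 1
    apply List.map_congr_left
    intro x _
    exact v_neg M x
  have hsubpb : ∀ a b : Ch (E M), pb ng (a - b) = pb ng a - pb ng b := fun a b => rfl
  have hsubpbv : ∀ a b : Ch (W M), pb (v M) (a - b) = pb (v M) a - pb (v M) b := fun a b => rfl
  obtain ⟨e, he⟩ := HPE k (by omega) (by omega) (k + 1) le_rfl c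
    (hc.mono (image_mono hsub))
  obtain ⟨b, hb⟩ := (Hm_acy M k hkM' 1 (by norm_num)).2.2 (k + 1) (by omega) ct (hctc.mono hAs)
  have hb2 : ∀ z ∈ Hm M k hkM' (-1), ct - (AS (E M)).D (pb ng b) ∈ (AS (E M)).N z (k + 1) := by
    intro z hz
    have hz' : ng z ∈ Hm M k hkM' 1 := by
      refine ⟨⟨?_, ?_⟩, ?_⟩
      · rw [hng]
        simp only [norm_neg]
        exact hz.1.1
      · intro i hi
        show -(z i) = 0
        rw [hz.1.2 i hi, neg_zero]
      · show 0 ≤ 1 * (-(z ⟨k, hkM'⟩))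
        have := hz.2
        linarith
    have h1 := pb_mem_Nz (g := ng) (x := z) (hngc z) (hb (ng z) hz')
    rw [hsubpb, hct, hnv, AS_D, ← dd_pb] at h1
    exact h1
  have hmapsS : MapsTo ng (Sp M k) (Sp M k) := by
    intro z hz
    refine ⟨?_, ?_⟩
    · rw [hng]
      simp only [norm_neg]
      exact hz.1
    · intro i hi
      show -(z i) = 0
      rw [hz.2 i hi, neg_zero]
  set β : Ch (E M) := b - pb (v M) e with hβ
  have hβc : (AS (E M)).Coc (Sp M k) k β := by
    intro z hz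
    have h1 := pb_mem_Nz (g := v M) (x := z) (hvc z) (he (v M z) (mem_image_of_mem _ hz))
    rw [hsubpbv, AS_D, ← dd_pb] at h1
    have h1' : ct - (AS (E M)).D (pb (v M) e) ∈ (AS (E M)).N z (k + 1) := h1
    have h2 : z ∈ Hm M k hkM' 1 := by
      rw [← hI] at hz
      exact hz.1
    have h3 := sub_mem h1' (hb z h2)
    have e2 : (AS (E M)).D b - (AS (E M)).D (pb (v M) e) =
        ct - (AS (E M)).D (pb (v M) e) - (ct - (AS (E M)).D b) := by abel
    rw [hβ, map_sub, e2]
    exact h3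
  have hβn : (AS (E M)).Coc (Sp M k) k (pb ng β) := coc_pb (fun x _ => hngc x) hmapsS hβc
  have hcob : (AS (E M)).Cob (Sp M k) k (β - pb ng β) := by
    rcases sp_rank hk2 hkM'.le β (pb ng β) hβc hβn with h | h | h
    · exact h.sub (cob_pb (fun x _ => hngc x) hmapsS h)
    · have h' := cob_pb (fun x _ => hngc x) hmapsS h
      rw [hnn] at h'
      exact h'.sub h
    · exact h
  have heq : b - pb ng b = β - pb ng β := by
    rw [hβ, hsubpb, hnv]
    abel
  rw [← hU]
  refine j9105_glue (b₁ := b) (b₂ := pb ng b) (b' := 0) (Hm_compact M k hkM' 1).isClosed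
    (Hm_compact M k hkM' (-1)).isClosed hb hb2 (coc_zero _ _) ?_
  rw [hI, sub_zero, heq]
  exact hcob

end Pool.Agent.Helper672.Lv.J27208
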