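import Pool.Agent.Helper672.Lv.Base

set_option autoImplicit false

namespace Pool.Agent.Helper672.Lv.J27209

open Set Topology Pool.Agent.Helper775.Tight Pool.Agent.Helper775.Tight.SoftCx



theorem s2_BB_compact {m M : ℕ} (Q : W M →ₗ[ℝ] E (m + 1)) : IsCompact (BB Q) := by
  have hQ : Continuous Q := Q.continuous_of_finiteDimensional
  have h1 : IsCompact ((Sp (m + 1) (m + 1)) ×ˢ (PP M M)) :=
    (Sp_compact (m + 1) (m + 1)).prod (PP_compact M M)
  have h2 : IsClosed {p : E (m + 1) × W M | 0 ≤ inner ℝ p.1 (Q p.2)} :=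
    isClosed_le continuous_const (continuous_fst.inner (hQ.comp continuous_snd))
  have h3 : BB Q = ((Sp (m + 1) (m + 1)) ×ˢ (PP M M)) ∩
      {p : E (m + 1) × W M | 0 ≤ inner ℝ p.1 (Q p.2)} := by
    ext p
    constructor
    · rintro ⟨a, b, c⟩
      exact ⟨⟨a, b⟩, c⟩
    · rintro ⟨⟨a, b⟩, c⟩
      exact ⟨a, b, c⟩
  rw [h3]
  exact h1.inter_right h2

theorem s2_PP_mono {M k : ℕ} : PP M k ⊆ PP M M := by
  rintro P ⟨z, hz, rfl⟩
  refine ⟨z, ⟨hz.1, fun i hi => ?_⟩, rfl⟩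
  exact absurd i.2 (by omega)

theorem step2_of {m M : ℕ} (hm : 2 ≤ m) (hM : m + 1 ≤ M)
    (HH : ∀ u : E (m + 1), u ≠ 0 →
      (AS (E (m + 1))).Acy one {w | w ∈ Sp (m + 1) (m + 1) ∧ 0 ≤ inner ℝ w u})
    (HI : ∀ c : Ch (W M), (AS (W M)).Coc (PP M M) (m + 1) c →
      (AS (W M)).Cob (PP M (m + 1)) (m + 1) c → (AS (W M)).Cob (PP M M) (m + 1) c)
    (Q : W M →ₗ[ℝ] E (m + 1))
    (hfree : ∀ z ∈ Sp M M, Q (v M z) ≠ 0) (w₀ : E (m + 1)) (hw₀ : w₀ ∈ Sp (m + 1) (m + 1))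
    (hpos : ∀ z ∈ Sp M (m + 1), 0 ≤ inner ℝ w₀ (Q (v M z)))
    (σ : Ch (E (m + 1))) (hσ : (AS (E (m + 1))).Coc (Sp (m + 1) (m + 1)) (m + 1) σ) :
    (AS (E (m + 1) × W M)).Cob (BB Q) (m + 1) (pb Prod.fst σ) := by
  have hG := s2_BB_compact Q
  let φ := phi (Prod.snd : E (m + 1) × W M → W M) continuous_snd (BB Q) hG
  -- fibres
  have hfib : ∀ P ∈ PP M M, (AS (E (m + 1) × W M)).Acy one (BB Q ∩ Prod.snd ⁻¹' {P}) := by
    intro P hP
    have hQP : Q P ≠ 0 := by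
      obtain ⟨z, hz, rfl⟩ := hP
      exact hfree z hz
    have hA := HH (Q P) hQP
    have hne : (BB Q ∩ Prod.snd ⁻¹' {P}).Nonempty := by
      by_contra hc
      apply hA.1
      intro w hw
      exact absurd (⟨(w, P), ⟨hw.1, hP, hw.2⟩, rfl⟩ : (BB Q ∩ Prod.snd ⁻¹' {P}).Nonempty) hc
    refine acy_retract (F' := {w | w ∈ Sp (m + 1) (m + 1) ∧ 0 ≤ inner ℝ w (Q P)})
      (g := Prod.fst) (g' := fun w => (w, P)) (fun x _ => continuous_fst.continuousAt)
      (fun y _ => (Continuous.prodMk_left P).continuousAt) ?_ ?_ ?_ hne hA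
    · rintro ⟨w, P'⟩ ⟨⟨h1, h2, h3⟩, h4⟩
      have h5 : P' = P := h4
      subst h5
      exact ⟨h1, h3⟩
    · intro w hw
      exact ⟨⟨hw.1, hP, hw.2⟩, rfl⟩
    · rintro ⟨w, P'⟩ ⟨⟨h1, h2, h3⟩, h4⟩
      have h5 : P' = P := h4
      subst h5
      rfl
  have hcone : ∀ P ∈ PP M M, ∀ n, (cone φ).Ex {P} n := by
    intro P hP n
    refine cone_ex_of_acy φ one P (one_D_mem P) (acy_singleton P) ?_ n
    exact (push_acy (AS (E (m + 1) × W M)) Prod.snd continuous_snd (BB Q) hG one {P}).2 (hfib P hP)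
  have hEx : (cone φ).Ex (PP M M) (m + 2) :=
    ex_of_pointwise (m + 2) (PP_compact M M) fun P hP n _ => hcone P hP n
  -- the cocycle on `BB`
  have hc : (AS (E (m + 1) × W M)).Coc (BB Q) (m + 1) (pb Prod.fst σ) :=
    coc_pb (fun x _ => continuous_fst.continuousAt) (fun x hx => hx.1) hσ
  have hc2 : (cone φ).Coc (PP M M) (m + 2) ((0 : Ch (W M)), pb Prod.fst σ) := by
    intro P hP
    rw [cone_D, cone_N]
    refine ⟨?_, ?_⟩
    · change (AS (W M)).D 0 ∈ (AS (W M)).N P (m + 2 + 1)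
      rw [map_zero]
      exact zero_mem _
    have h1 : (PF (Prod.snd : E (m + 1) × W M → W M) continuous_snd (BB Q) hG).D (pb Prod.fst σ) ∈
        (PF (Prod.snd : E (m + 1) × W M → W M) continuous_snd (BB Q) hG).N P (m + 2) := by
      rw [mem_push_N]
      intro x hx
      exact hc x hx.1
    simpa using h1
  obtain ⟨⟨e, f⟩, hef⟩ := hEx _ hc2
  have he : (AS (W M)).Coc (PP M M) (m + 1) e := by
    intro P hP
    have h1 := (hef P hP).1
    change (0 : Ch (W M)) - (AS (W M)).D e ∈ (AS (W M)).N P (m + 2) at h1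
    simpa using neg_mem h1
  have hce : (AS (E (m + 1) × W M)).Cob (BB Q) (m + 1) (pb Prod.fst σ - pb Prod.snd e) := by
    refine ⟨-f, ?_⟩
    intro x hx
    have h1 := (hef x.2 hx.2.1).2
    change pb Prod.fst σ - (pb Prod.snd e - dd f) ∈
      (PF (Prod.snd : E (m + 1) × W M → W M) continuous_snd (BB Q) hG).N x.2 (m + 1) at h1
    rw [mem_push_N] at h1
    have h2 := h1 x ⟨hx, rfl⟩
    rw [map_neg]
    convert h2 using 1
    rw [AS_D]
    abel
  -- restriction to a copy of the small projective space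
  have hi : ∀ x ∈ PP M (m + 1), ContinuousAt (fun P : W M => (w₀, P)) x :=
    fun x _ => (Continuous.prodMk_right w₀).continuousAt
  have him : MapsTo (fun P : W M => (w₀, P)) (PP M (m + 1)) (BB Q) := by
    intro P hP
    refine ⟨hw₀, s2_PP_mono hP, ?_⟩
    obtain ⟨z, hz, rfl⟩ := hP
    exact hpos z hz
  have h1 := cob_pb hi him hce
  have h2 : (AS (W M)).Cob (PP M (m + 1)) (m + 1) (pb (fun _ : W M => w₀) σ) := by
    refine cob_pb (F' := {w₀}) (fun x _ => continuousAt_const) (fun x _ => rfl) ?_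
    exact (acy_singleton w₀).2.2 (m + 1) (by omega) σ (hσ.mono (singleton_subset_iff.2 hw₀))
  have h3 : (AS (W M)).Cob (PP M (m + 1)) (m + 1) e := by
    have h4 := h2.sub h1
    convert h4 using 1
    funext l
    simp only [Pi.sub_apply, pb, List.map_map]
    have e1 : (Prod.fst ∘ fun P : W M => (w₀, P)) = fun _ => w₀ := rfl
    have e2 : (Prod.snd ∘ fun P : W M => (w₀, P)) = id := rfl
    rw [e1, e2, List.map_id]
    ring
  have h5 := HI e he h3
  have h6 : (AS (E (m + 1) × W M)).Cob (BB Q) (m + 1) (pb Prod.snd e) :=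
    cob_pb (fun x _ => continuous_snd.continuousAt) (fun x hx => hx.2.1) h5
  have h7 := hce.add h6
  rwa [sub_add_cancel] at h7

end Pool.Agent.Helper672.Lv.J27209
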