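import Pool.Agent.Helper672.Lv.Base

set_option autoImplicit false

namespace Pool.Agent.Helper672.Lv.J27210

open Set Topology Pool.Agent.Helper775.Tight Pool.Agent.Helper775.Tight.SoftCx



/-- spectral form of the quadratic form `z ↦ ⟨w, Q (v z)⟩`. -/
def Spec {m M : ℕ} (Q : W M →ₗ[ℝ] E (m + 1)) (w : E (m + 1)) : Prop :=
  ∃ (O : E M ≃ₗᵢ[ℝ] E M) (N : ℕ) (lam : Fin M → ℝ), m ≤ N ∧ N ≤ M ∧
    (∀ i : Fin M, i.val < N → 0 ≤ lam i) ∧ (∀ i : Fin M, N ≤ i.val → lam i < 0) ∧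
    ∀ z : E M, inner ℝ w (Q (v M (O z))) = ∑ i, lam i * (z i) ^ 2


theorem w27_exp {M : ℕ} (O : E M ≃ₗᵢ[ℝ] E M) (z : E M) (i : Fin M) :
    (O z) i = ∑ a, z a * (O (EuclideanSpace.single a (1 : ℝ))) i := by
  have h1 : z = ∑ a, z a • (EuclideanSpace.single a (1 : ℝ) : E M) := by
    ext j
    simp [Finset.sum_apply, Pi.single_apply]
  have h2 : O z = ∑ a, z a • O (EuclideanSpace.single a (1 : ℝ) : E M) := by
    conv_lhs => rw [h1]
    rw [map_sum]
    refine Finset.sum_congr rfl fun a _ => ?_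
    rw [map_smul]
  rw [h2]
  simp [Finset.sum_apply]

theorem w27_vO {M : ℕ} (O : E M ≃ₗᵢ[ℝ] E M) (z : E M) :
    v M (O z) = fun i j => ∑ a, ∑ b, (O (EuclideanSpace.single a (1 : ℝ))) i *
      (O (EuclideanSpace.single b (1 : ℝ))) j * v M z a b := by
  funext i j
  simp only [v]
  rw [w27_exp O z i, w27_exp O z j, Finset.sum_mul_sum]
  refine Finset.sum_congr rfl fun a _ => Finset.sum_congr rfl fun b _ => ?_
  ring

theorem fib_facts_of {m M : ℕ} (hm : 3 ≤ m)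
    (HD : ∀ (N : ℕ) (lam : Fin M → ℝ), 1 ≤ N → N ≤ M → (∀ i : Fin M, i.val < N → 0 ≤ lam i) →
      (∀ i : Fin M, N ≤ i.val → lam i < 0) → ∀ (n : ℕ) (c : Ch (E M)),
      (AS (E M)).Coc (DL M lam) n c → (AS (E M)).Cob (Sp M N) n c →
      (AS (E M)).Cob (DL M lam) n c)
    (HP : ∀ k : ℕ, 3 ≤ k → k ≤ M → ∀ c : Ch (W M), (AS (W M)).Coc (PP M k) k c →
      (AS (E M)).Cob (Sp M k) k (pb (v M) c))
    (Q : W M →ₗ[ℝ] E (m + 1)) (w : E (m + 1))
    (hw : w ∈ Sp (m + 1) (m + 1)) (hs : Spec Q w) :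
    (BT Q ∩ Prod.fst ⁻¹' {w}).Nonempty ∧
    (∀ k, (AS (E (m + 1) × E M)).Coc (BT Q ∩ Prod.fst ⁻¹' {w}) 1 k →
      (∀ z ∈ BT Q ∩ Prod.fst ⁻¹' {w}, k ∈ (AS (E (m + 1) × E M)).N z 1) ∨
      ∀ z ∈ BT Q ∩ Prod.fst ⁻¹' {w}, k - one ∈ (AS (E (m + 1) × E M)).N z 1) ∧
    (∀ n, 2 ≤ n → n < m → (AS (E (m + 1) × E M)).Ex (BT Q ∩ Prod.fst ⁻¹' {w}) n) ∧
    ∀ c : Ch (E (m + 1) × W M), (AS (E (m + 1) × W M)).Coc (BB Q ∩ Prod.fst ⁻¹' {w}) m c →
      (AS (E (m + 1) × E M)).Cob (BT Q ∩ Prod.fst ⁻¹' {w}) m (pb (Prod.map id (v M)) c) := by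
  obtain ⟨O, N, lam, hmN, hNM, hl0, hl1, hO⟩ := hs
  set F := BT Q ∩ Prod.fst ⁻¹' {w} with hF
  let j : E M → E (m + 1) × E M := fun z => (w, O z)
  let g : E (m + 1) × E M → E M := fun p => O.symm p.2
  have hjc : Continuous j := by
    exact continuous_const.prodMk O.continuous
  have hgc : Continuous g := by
    exact O.symm.continuous.comp continuous_snd
  have hSO : ∀ z : E M, z ∈ Sp M M → O z ∈ Sp M M := by
    intro z hz
    refine ⟨?_, fun i hi => absurd i.2 (by omega)⟩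
    rw [O.norm_map]
    exact hz.1
  have hSO' : ∀ z : E M, z ∈ Sp M M → O.symm z ∈ Sp M M := by
    intro z hz
    refine ⟨?_, fun i hi => absurd i.2 (by omega)⟩
    rw [O.symm.norm_map]
    exact hz.1
  have hjF : MapsTo j (DL M lam) F := by
    intro z hz
    refine ⟨⟨hw, hSO z hz.1, ?_⟩, rfl⟩
    show 0 ≤ inner ℝ w (Q (v M (O z)))
    rw [hO]
    exact hz.2
  have hgF : MapsTo g F (DL M lam) := by
    rintro p ⟨⟨hp1, hp2, hp3⟩, hp4⟩
    have hp4' : p.1 = w := hp4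
    refine ⟨hSO' _ hp2, ?_⟩
    show 0 ≤ ∑ i, lam i * ((O.symm p.2) i) ^ 2
    rw [← hO, O.apply_symm_apply, ← hp4']
    exact hp3
  have hjg : ∀ p ∈ F, j (g p) = p := by
    rintro p ⟨_, hp4⟩
    have hp4' : p.1 = w := hp4
    show (w, O (O.symm p.2)) = p
    rw [O.apply_symm_apply, ← hp4']
  have hSD : Sp M N ⊆ DL M lam := by
    rintro z ⟨hz1, hz2⟩
    refine ⟨⟨hz1, fun i hi => absurd i.2 (by omega)⟩, Finset.sum_nonneg fun i _ => ?_⟩
    rcases lt_or_ge i.val N with h | h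
    · exact mul_nonneg (hl0 i h) (sq_nonneg _)
    · rw [hz2 i h]
      simp
  have hcS : ∀ n k, (AS (E (m + 1) × E M)).Coc F n k → (AS (E M)).Coc (Sp M N) n (pb j k) := by
    intro n k hk
    exact (coc_pb (fun x _ => hjc.continuousAt) hjF hk).mono hSD
  have KEY : ∀ n k, (AS (E (m + 1) × E M)).Coc F n k → (AS (E M)).Cob (Sp M N) n (pb j k) →
      (AS (E (m + 1) × E M)).Cob F n k := by
    intro n k hk hcob
    have h1 := coc_pb (fun x _ => hjc.continuousAt) hjF hk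
    have h2 := HD N lam (by omega) hNM hl0 hl1 n (pb j k) h1 hcob
    have h3 := cob_pb (F := F) (g := g) (fun x _ => hgc.continuousAt) hgF h2
    have h4 := cob_retract (F := F) (F' := DL M lam) (g := g) (g' := j)
      (fun x _ => hgc.continuousAt) (fun x _ => hjc.continuousAt) hgF hjF hjg hk
    have h5 := h4.add h3
    simpa using h5
  refine ⟨?_, ?_, ?_, ?_⟩
  · obtain ⟨z, hz⟩ := xa_sp_nonempty (M := M) (k := N) (by omega) hNM
    exact ⟨j z, hjF (hSD hz)⟩
  · intro k hk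
    rcases sp_connected (M := M) (k := N) (by omega) hNM (pb j k) (hcS 1 k hk) with h | h
    · left
      exact cob_one.1 (KEY 1 k hk (cob_one.2 h))
    · right
      have hk1 : (AS (E (m + 1) × E M)).Coc F 1 (k - one) :=
        hk.sub (fun z _ => one_D_mem z)
      refine cob_one.1 (KEY 1 (k - one) hk1 (cob_one.2 ?_))
      intro z hz
      exact h z hz
  · intro n hn hnm k hk
    exact KEY n k hk (sp_ex (by omega) hNM n hn (by omega) _ (hcS n k hk))
  · intro c hc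
    have hmap : MapsTo (Prod.map id (v M)) F (BB Q ∩ Prod.fst ⁻¹' {w}) := by
      rintro p ⟨⟨hp1, hp2, hp3⟩, hp4⟩
      refine ⟨⟨hp1, ⟨p.2, hp2, rfl⟩, hp3⟩, hp4⟩
    have hvc : Continuous (Prod.map (id : E (m + 1) → E (m + 1)) (v M)) :=
      continuous_id.prodMap (v_continuous M)
    have hk : (AS (E (m + 1) × E M)).Coc F m (pb (Prod.map id (v M)) c) :=
      coc_pb (fun x _ => hvc.continuousAt) hmap hc
    refine KEY m _ hk ?_
    rcases Nat.eq_or_lt_of_le hmN with h | h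
    · subst h
      let iota : W M → E (m + 1) × W M := fun P => (w, fun i j => ∑ a, ∑ b,
        (O (EuclideanSpace.single a (1 : ℝ))) i * (O (EuclideanSpace.single b (1 : ℝ))) j * P a b)
      have hic : Continuous iota := by
        refine continuous_const.prodMk ?_
        fun_prop
      have hiv : ∀ z : E M, iota (v M z) = (w, v M (O z)) := by
        intro z
        rw [w27_vO O z]
      have e : pb j (pb (Prod.map id (v M)) c) = pb (v M) (pb iota c) := by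
        funext l
        simp only [pb, List.map_map]
        congr 1
        refine List.map_congr_left fun z _ => ?_
        show (w, v M (O z)) = iota (v M z)
        rw [hiv]
      rw [e]
      refine HP m hm hNM _ (coc_pb (fun x _ => hic.continuousAt) ?_ hc)
      rintro P ⟨z, hz, rfl⟩
      rw [hiv]
      have hzD := hSD hz
      refine ⟨⟨hw, ⟨O z, hSO z hzD.1, rfl⟩, ?_⟩, rfl⟩
      show 0 ≤ inner ℝ w (Q (v M (O z)))
      rw [hO]
      exact hzD.2
    · exact sp_ex (by omega) hNM m (by omega) (by omega) _ (hcS m _ hk)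

end Pool.Agent.Helper672.Lv.J27210
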