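import Pool.Agent.Helper672.Lv.Base

set_option autoImplicit false

namespace Pool.Agent.Helper672.Lv.J27211

open Set Topology Pool.Agent.Helper775.Tight Pool.Agent.Helper775.Tight.SoftCx



theorem step4_of_cone {Y K K' : Type*} [TopologicalSpace Y] [AddCommGroup K] [AddCommGroup K']
    {M : SoftCx Y K} {F : SoftCx Y K'} (φ : Mor M F) (one : K) (w : Y) (hone : M.D one ∈ M.N w 2)
    (hM : M.Acy one {w}) (hF0 : ¬ φ.f one ∈ F.N w 1)
    (hF1 : ∀ k, F.Coc {w} 1 k → k ∈ F.N w 1 ∨ k - φ.f one ∈ F.N w 1) (N : ℕ)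
    (hF2 : ∀ n, 2 ≤ n → n < N → F.Ex {w} n) (n : ℕ) (hnN : n ≤ N) : (cone φ).Ex {w} n := by
  obtain ⟨-, hM1, hM2⟩ := hM
  simp only [mem_singleton_iff, forall_eq] at hM1
  rintro ⟨e, f⟩ hk
  have hk' := hk w rfl
  rw [cone_D, cone_N] at hk'
  obtain ⟨he, hf⟩ := hk'
  simp only [add_tsub_cancel_right] at he hf
  rcases n with _ | _ | n
  · exact cob_index_zero _ _
  · have h1 := hM1 e (by intro z hz; rw [mem_singleton_iff.1 hz]; exact he)
    rcases h1 with h1 | h1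
    · exact Cob.of_mem fun z hz => by
        rw [mem_singleton_iff.1 hz]; exact ⟨h1, F.N_zero _ _⟩
    · exfalso
      apply hF0
      have h2 := φ.mem w 1 _ h1
      have h3 := F.D_mem w 0 f (F.N_zero w f)
      have h4 := add_mem hf h3
      rw [map_sub] at h2
      have h5 := sub_mem h4 h2
      have e1 : φ.f e - F.D f + F.D f - (φ.f e - φ.f one) = φ.f one := by abel
      rw [e1] at h5
      exact h5
  · obtain ⟨e', he'⟩ := hM2 (n + 2) (by omega) e
      (by intro z hz; rw [mem_singleton_iff.1 hz]; exact he)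
    have he'' := he' w rfl
    have hg : F.Coc {w} (n + 1) (f - φ.f e') := by
      intro z hz
      rw [mem_singleton_iff.1 hz]
      have h1 := φ.mem w (n + 2) _ he''
      have h2 := φ.comm w (n + 2) e'
      rw [map_sub] at h1
      have h3 := neg_mem (add_mem (add_mem hf (neg_mem h1)) h2)
      convert h3 using 1
      rw [map_sub]; abel
    rcases Nat.eq_zero_or_pos n with rfl | hn
    · rcases hF1 _ hg with h1 | h1
      · refine ⟨(e', 0), fun z hz => ?_⟩
        rw [mem_singleton_iff.1 hz, cone_D, cone_N]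
        refine ⟨he'', ?_⟩
        simpa using h1
      · refine ⟨(e' + one, 0), fun z hz => ?_⟩
        rw [mem_singleton_iff.1 hz, cone_D, cone_N]
        refine ⟨?_, ?_⟩
        · have := sub_mem he'' hone
          simp only [Prod.fst_sub, map_add] at this ⊢
          convert this using 1
          abel
        · simp only [Prod.snd_sub, map_add, map_zero]
          convert h1 using 1
          abel
    · obtain ⟨g', hg'⟩ := hF2 (n + 1) (by omega) (by omega) _ hg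
      refine ⟨(e', -g'), fun z hz => ?_⟩
      rw [mem_singleton_iff.1 hz, cone_D, cone_N]
      refine ⟨he'', ?_⟩
      have := hg' w rfl
      change f - (φ.f e' - F.D (-g')) ∈ F.N w (n + 1)
      rw [map_neg]
      convert this using 1
      abel


theorem step4_of_compact {m M : ℕ} (Q : W M →ₗ[ℝ] E (m + 1)) : IsCompact (BT Q) := by
  have h1 : BT Q = (Sp (m + 1) (m + 1) ×ˢ Sp M M) ∩
      {p : E (m + 1) × E M | 0 ≤ inner ℝ p.1 (Q (v M p.2))} := by
    ext p
    constructor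
    · rintro ⟨a, b, c⟩
      exact ⟨⟨a, b⟩, c⟩
    · rintro ⟨⟨a, b⟩, c⟩
      exact ⟨a, b, c⟩
  rw [h1]
  refine ((Sp_compact (m + 1) (m + 1)).prod (Sp_compact M M)).inter_right ?_
  have hQ : Continuous Q := LinearMap.continuous_of_finiteDimensional Q
  have hv := v_continuous M
  exact isClosed_le continuous_const
    (continuous_fst.inner (hQ.comp (hv.comp continuous_snd)))

theorem step4_of_maps {m M : ℕ} (Q : W M →ₗ[ℝ] E (m + 1)) (z : E (m + 1) × E M) (hz : z ∈ BT Q) :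
    Prod.map id (v M) z ∈ BB Q :=
  ⟨hz.1, ⟨z.2, hz.2.1, rfl⟩, hz.2.2⟩

theorem step4_of_pb {m M : ℕ} (σ : Ch (E (m + 1))) :
    pb (Prod.map id (v M) : E (m + 1) × E M → E (m + 1) × W M) (pb Prod.fst σ) = pb Prod.fst σ := by
  funext l
  show σ ((l.map (Prod.map id (v M))).map Prod.fst) = σ (l.map Prod.fst)
  rw [List.map_map]
  rfl

theorem step4_of {m M : ℕ} (hm : 3 ≤ m) (Q : W M →ₗ[ℝ] E (m + 1))
    (HF : ∀ w ∈ Sp (m + 1) (m + 1), (BT Q ∩ Prod.fst ⁻¹' {w}).Nonempty ∧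
      (∀ k, (AS (E (m + 1) × E M)).Coc (BT Q ∩ Prod.fst ⁻¹' {w}) 1 k →
        (∀ z ∈ BT Q ∩ Prod.fst ⁻¹' {w}, k ∈ (AS (E (m + 1) × E M)).N z 1) ∨
        ∀ z ∈ BT Q ∩ Prod.fst ⁻¹' {w}, k - one ∈ (AS (E (m + 1) × E M)).N z 1) ∧
      (∀ n, 2 ≤ n → n < m → (AS (E (m + 1) × E M)).Ex (BT Q ∩ Prod.fst ⁻¹' {w}) n) ∧
      ∀ c : Ch (E (m + 1) × W M), (AS (E (m + 1) × W M)).Coc (BB Q ∩ Prod.fst ⁻¹' {w}) m c →
        (AS (E (m + 1) × E M)).Cob (BT Q ∩ Prod.fst ⁻¹' {w}) m (pb (Prod.map id (v M)) c))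
    (HC : ∀ (C : SoftCx (E (m + 1)) (Ch (E (m + 1)) × Ch (E (m + 1) × E M))) (n : ℕ)
      (Z : Set (E (m + 1))), IsCompact Z → (∀ z ∈ Z, ∀ j ≤ n, C.Ex {z} j) →
      ∀ k, (∀ z ∈ Z, C.Cob {z} (n + 1) k) → C.Cob Z (n + 1) k)
    (σ : Ch (E (m + 1)))
    (hσ : (AS (E (m + 1))).Coc (Sp (m + 1) (m + 1)) (m + 1) σ)
    (h : (AS (E (m + 1) × W M)).Cob (BB Q) (m + 1) (pb Prod.fst σ)) :
    (AS (E (m + 1))).Cob (Sp (m + 1) (m + 1)) (m + 1) σ := by
  obtain ⟨f, hf⟩ := h
  have hVc : Continuous (Prod.map id (v M) : E (m + 1) × E M → E (m + 1) × W M) :=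
    continuous_id.prodMap (v_continuous M)
  set ft : Ch (E (m + 1) × E M) := pb (Prod.map id (v M)) f with hft
  have hBT := step4_of_compact Q
  let ψ := phi (Prod.fst : E (m + 1) × E M → E (m + 1)) continuous_fst (BT Q) hBT
  have hbase : ∀ w ∈ Sp (m + 1) (m + 1), ∀ j ≤ m, (cone ψ).Ex {w} j := by
    intro w hw j hj
    obtain ⟨hne, hconn, hex, -⟩ := HF w hw
    refine step4_of_cone ψ one w (one_D_mem w) (acy_singleton w) ?_ ?_ m ?_ j hj
    · intro h1
      exact not_one_mem hne ((mem_push_N _ _ _ _ _ w 1 _).1 h1)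
    · intro k hk
      rcases hconn k ((push_coc _ _ _ _ _ {w} 1 k).1 hk) with h1 | h1
      · exact Or.inl ((mem_push_N _ _ _ _ _ w 1 _).2 h1)
      · exact Or.inr ((mem_push_N _ _ _ _ _ w 1 _).2 h1)
    · intro n hn1 hn2
      exact (push_ex _ _ _ _ _ {w} n).2 (hex n hn1 hn2)
  have hpt : ∀ w ∈ Sp (m + 1) (m + 1), (cone ψ).Cob {w} (m + 1) (σ, ft) := by
    intro w hw
    obtain ⟨-, -, -, hlast⟩ := HF w hw
    obtain ⟨e', he'⟩ := (acy_singleton w).2.2 (m + 1) (by omega) σ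
      (hσ.mono (singleton_subset_iff.2 hw))
    have he := he' w rfl
    have hcoc : (AS (E (m + 1) × W M)).Coc (BB Q ∩ Prod.fst ⁻¹' {w}) m (f - pb Prod.fst e') := by
      intro z hz
      have h1 := hf z hz.1
      have hzw : z.1 = w := hz.2
      have h2 : pb Prod.fst (σ - (AS (E (m + 1))).D e') ∈ (AS (E (m + 1) × W M)).N z (m + 1) := by
        rw [← hzw] at he
        exact pb_mem_Nz (Continuous.continuousAt continuous_fst) he
      have h3 := sub_mem h2 h1
      convert h3 using 1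
      rw [map_sub]
      show dd f - dd (pb Prod.fst e') = (pb Prod.fst σ - pb Prod.fst (dd e')) - (pb Prod.fst σ - dd f)
      rw [dd_pb]
      abel
    obtain ⟨g, hg⟩ := hlast _ hcoc
    refine ⟨(e', -g), fun z hz => ?_⟩
    rw [mem_singleton_iff.1 hz, cone_D, cone_N]
    refine ⟨he, ?_⟩
    refine (mem_push_N _ _ _ _ _ w _ _).2 fun x hx => ?_
    have h4 := hg x hx
    show ft - (pb Prod.fst e' - dd (-g)) ∈ (AS (E (m + 1) × E M)).N x m
    have h5 : ft - (pb Prod.fst e' - dd (-g)) =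
        pb (Prod.map id (v M)) (f - pb Prod.fst e') - (AS (E (m + 1) × E M)).D g := by
      have h6 : dd (-g) = -dd g := (DD : Ch (E (m + 1) × E M) →+ Ch (E (m + 1) × E M)).map_neg g
      have h7 : pb (Prod.map id (v M)) (f - pb Prod.fst e') =
          ft - pb (Prod.map id (v M) : E (m + 1) × E M → E (m + 1) × W M) (pb Prod.fst e') := rfl
      rw [h6, h7, step4_of_pb, AS_D]
      abel
    rw [h5]
    exact h4
  obtain ⟨⟨e, g⟩, heg⟩ := HC (cone ψ) m (Sp (m + 1) (m + 1)) (Sp_compact _ _) hbase (σ, ft) hpt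
  exact ⟨e, fun z hz => (heg z hz).1⟩

end Pool.Agent.Helper672.Lv.J27211
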