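import Pool.Agent.Helper672.Lv.J27085
import Pool.Agent.Helper672.Lv.J27086
import Pool.Agent.Helper672.Lv.J27087
import Pool.Agent.Helper672.Lv.J27088
import Pool.Agent.Helper672.Lv.J27089

set_option autoImplicit false

namespace Pool.Agent.Helper672.Lv

theorem normSq_sub_rho (ρ : ℝ) (μ : ℂ) :
    ‖μ - (ρ : ℂ) * Complex.I‖ ^ 2 = ‖μ‖ ^ 2 - 2 * ρ * μ.im + ρ ^ 2 := by
  rw [← Complex.normSq_eq_norm_sq, ← Complex.normSq_eq_norm_sq, Complex.normSq_apply,
    Complex.normSq_apply]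
  simp
  ring

/-- spectral projections of a compact family without real eigenvalues. -/
theorem exists_family_proj {X : Type*} [TopologicalSpace X] [CompactSpace X] {N : ℕ}
    (R : X → Matrix (Fin N) (Fin N) ℂ) (hR : Continuous R)
    (hno : ∀ x (t : ℝ), (R x - (t : ℂ) • (1 : Matrix (Fin N) (Fin N) ℂ)).det ≠ 0) :
    ∃ P : X → Matrix (Fin N) (Fin N) ℂ, Continuous P ∧ (∀ x, P x * P x = P x) ∧
      ∀ x y, R y = - R x → P y = 1 - P x := by
  obtain ⟨ρ, hρ, hb⟩ := J27085.exists_radius R hR hno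
  have hneg : ∀ (A : Matrix (Fin N) (Fin N) ℂ) (z : ℂ),
      (z • (1 : Matrix (Fin N) (Fin N) ℂ) - A).det = 0 →
      (A - z • (1 : Matrix (Fin N) (Fin N) ℂ)).det = 0 := by
    intro A z h
    have e : A - z • (1 : Matrix (Fin N) (Fin N) ℂ) =
        -(z • (1 : Matrix (Fin N) (Fin N) ℂ) - A) := by abel
    rw [e, Matrix.det_neg, h, mul_zero]
  have hc : ∀ x, ∀ z : ℂ, ‖z - (ρ : ℂ) * Complex.I‖ = ρ →
      (z • (1 : Matrix (Fin N) (Fin N) ℂ) - R x).det ≠ 0 := by
    intro x z hz h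
    have h1 := hb x z (hneg _ _ h)
    have h2 := normSq_sub_rho ρ z
    rw [hz] at h2
    have h3 : ‖z‖ ^ 2 = 2 * ρ * z.im := by linarith
    have h4 : 0 ≤ z.im := by
      by_contra h5
      push Not at h5
      have : 2 * ρ * z.im < 0 := by nlinarith
      have := sq_nonneg ‖z‖
      linarith
    rw [abs_of_nonneg h4] at h1
    linarith
  have hin : ∀ x (μ : ℂ) (k : ℕ) (u : Fin N → ℂ),
      ((R x - μ • (1 : Matrix (Fin N) (Fin N) ℂ)) ^ k).mulVec u = 0 →
      (R x - μ • (1 : Matrix (Fin N) (Fin N) ℂ)).det = 0 → 0 < μ.im →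
      (Ec ρ (R x)).mulVec u = u := by
    intro x μ k u hu hd hi
    refine J27086.Ec_inside hρ (R x) (hc x) μ ?_ k u hu
    have h1 := hb x μ hd
    have h2 := normSq_sub_rho ρ μ
    rw [abs_of_pos hi] at h1
    have h3 : ‖μ - (ρ : ℂ) * Complex.I‖ ^ 2 < ρ ^ 2 := by linarith
    exact lt_of_pow_lt_pow_left₀ 2 hρ.le h3
  have hout : ∀ x (μ : ℂ) (k : ℕ) (u : Fin N → ℂ),
      ((R x - μ • (1 : Matrix (Fin N) (Fin N) ℂ)) ^ k).mulVec u = 0 →
      (R x - μ • (1 : Matrix (Fin N) (Fin N) ℂ)).det = 0 → μ.im < 0 →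
      (Ec ρ (R x)).mulVec u = 0 := by
    intro x μ k u hu hd hi
    refine J27086.Ec_outside hρ (R x) (hc x) μ ?_ k u hu
    have h2 := normSq_sub_rho ρ μ
    have h4 : 0 < -(2 * ρ * μ.im) := by nlinarith
    have h3 : ρ ^ 2 < ‖μ - (ρ : ℂ) * Complex.I‖ ^ 2 := by
      have := sq_nonneg ‖μ‖
      linarith
    exact lt_of_pow_lt_pow_left₀ 2 (norm_nonneg _) h3
  have him : ∀ x (μ : ℂ), (R x - μ • (1 : Matrix (Fin N) (Fin N) ℂ)).det = 0 →
      0 < μ.im ∨ μ.im < 0 := by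
    intro x μ hd
    rcases lt_trichotomy μ.im 0 with h | h | h
    · exact Or.inr h
    · exfalso
      apply hno x μ.re
      have e : ((μ.re : ℝ) : ℂ) = μ := by
        apply Complex.ext
        · simp
        · simp [h]
      rw [e]; exact hd
    · exact Or.inl h
  refine ⟨fun x => Ec ρ (R x), J27087.Ec_continuous hρ R hR hc, ?_, ?_⟩
  · intro x
    refine J27088.ext_genEigen (R x) _ _ ?_
    intro μ k u hu hd
    rw [← Matrix.mulVec_mulVec]
    rcases him x μ hd with h | h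
    · rw [hin x μ k u hu hd h, hin x μ k u hu hd h]
    · rw [hout x μ k u hu hd h, Matrix.mulVec_zero]
  · intro x y hxy
    refine J27088.ext_genEigen (R x) _ _ ?_
    intro μ k u hu hd
    have e : R y - (-μ) • (1 : Matrix (Fin N) (Fin N) ℂ) =
        -(R x - μ • (1 : Matrix (Fin N) (Fin N) ℂ)) := by
      rw [hxy, neg_smul]; abel
    have hu' : ((R y - (-μ) • (1 : Matrix (Fin N) (Fin N) ℂ)) ^ k).mulVec u = 0 := by
      rw [e, neg_pow, ← Matrix.mulVec_mulVec, hu, Matrix.mulVec_zero]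
    have hd' : (R y - (-μ) • (1 : Matrix (Fin N) (Fin N) ℂ)).det = 0 := by
      rw [e, Matrix.det_neg, hd, mul_zero]
    rw [Matrix.sub_mulVec, Matrix.one_mulVec]
    rcases him x μ hd with h | h
    · rw [hin x μ k u hu hd h, hout y (-μ) k u hu' hd' (by simpa using h), sub_self]
    · rw [hout x μ k u hu hd h, hin y (-μ) k u hu' hd' (by simpa using h), sub_zero]

end Pool.Agent.Helper672.Lv
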