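import Pool.Agent.Helper672.Lv.J26886
import Pool.Agent.Helper672.Lv.J26888
import Pool.Agent.Helper672.Lv.J26890
import Pool.Agent.Helper672.Lv.J26892
import Pool.Agent.Helper672.Lv.J26893
import Pool.Agent.Helper672.Lv.J27207
import Pool.Agent.Helper672.Lv.J27208
import Pool.Agent.Helper672.Lv.J27209
import Pool.Agent.Helper672.Lv.J27210
import Pool.Agent.Helper672.Lv.J27211

set_option autoImplicit false

namespace Pool.Agent.Helper672.Lv

open Set Topology Pool.Agent.Helper775.Tight Pool.Agent.Helper775.Tight.SoftCx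

theorem cob_of_pointwise {Y K : Type*} [MetricSpace Y] [AddCommGroup K] {C : SoftCx Y K} (n : ℕ)
    {Z : Set Y} (hZ : IsCompact Z) (hp : ∀ z ∈ Z, ∀ m ≤ n, C.Ex {z} m) {k : K}
    (hk : ∀ z ∈ Z, C.Cob {z} (n + 1) k) : C.Cob Z (n + 1) k := by
  refine not_cob_induction hZ fun Z' hZ' hc hmin => ?_
  rcases Z'.eq_empty_or_nonempty with rfl | ⟨z, hz⟩
  · exact Cob.of_mem (by simp)
  have h1 : C.Cob {z} (n + 1) k := hk z (hZ' hz)
  obtain ⟨U, hU, hzU, hcU⟩ := h1.isOpen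
  obtain ⟨r, hr, hrU⟩ := Metric.isOpen_iff.1 hU z (hzU rfl)
  have hA : IsCompact (Z' ∩ Metric.closedBall z (r / 2)) :=
    hc.inter_right Metric.isClosed_closedBall
  have hB : IsCompact (Z' \ Metric.ball z (r / 2)) := hc.diff Metric.isOpen_ball
  have hun : Z' = (Z' ∩ Metric.closedBall z (r / 2)) ∪ (Z' \ Metric.ball z (r / 2)) := by
    ext x
    simp only [mem_union, mem_inter_iff, Metric.mem_closedBall, mem_sdiff, Metric.mem_ball]
    constructor
    · intro hx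
      rcases le_or_gt (dist x z) (r / 2) with h | h
      · exact Or.inl ⟨hx, h⟩
      · exact Or.inr ⟨hx, not_lt.2 h.le⟩
    · rintro (h | h)
      · exact h.1
      · exact h.1
  rw [hun]
  refine mv hA.isClosed hB.isClosed ?_ ?_ ?_
  · exact ex_of_pointwise n (hA.inter hB) fun w hw m hm => hp w (hZ' hw.1.1) m hm
  · refine hcU.mono fun x hx => hrU ?_
    have := hx.2
    rw [Metric.mem_closedBall] at this
    rw [Metric.mem_ball]
    linarith
  · refine hmin _ sdiff_subset hB fun h => ?_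
    have : z ∈ Z' \ Metric.ball z (r / 2) := by rw [h]; exact hz
    exact this.2 (Metric.mem_ball_self (by positivity))

/-- no zero-free quadratic map `ℝ^M → ℝ^(m+1)` all of whose forms have at least `m` nonnegative
directions and one of whose forms has `m + 1` of them. -/
theorem T2 {m M : ℕ} (hm : 3 ≤ m) (hM : m + 1 ≤ M) (Q : W M →ₗ[ℝ] E (m + 1))
    (hfree : ∀ z ∈ Sp M M, Q (v M z) ≠ 0) (hs : ∀ w ∈ Sp (m + 1) (m + 1), J27210.Spec Q w)
    (w₀ : E (m + 1)) (hw₀ : w₀ ∈ Sp (m + 1) (m + 1))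
    (hpos : ∀ z ∈ Sp M (m + 1), 0 ≤ inner ℝ w₀ (Q (v M z))) : False := by
  have HA : ∀ (k : ℕ) (hk : k < M), (AS (W M)).Acy one (PA M k hk) :=
    fun k hk => J26886.PA_acy hk
  have HAB : ∀ (k : ℕ) (hk : k < M), 1 ≤ k → ∀ n : ℕ, 2 ≤ n → n ≠ k →
      (AS (W M)).Ex (PA M k hk ∩ PB M k hk) n :=
    fun k hk h1 n hn hnk => J26888.PAB_ex hk h1 n hn hnk
  have HB : ∀ (k : ℕ) (hk : k < M), 1 ≤ k → ∀ (n : ℕ) (c : Ch (W M)),
      (AS (W M)).Coc (PB M k hk) n c → (AS (W M)).Cob (PP M k) n c →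
      (AS (W M)).Cob (PB M k hk) n c :=
    fun k hk h1 n c hc h => J26890.PB_cob hk h1 hc h
  have HPE : ∀ k : ℕ, 1 ≤ k → k ≤ M → ∀ n : ℕ, k + 1 ≤ n → (AS (W M)).Ex (PP M k) n :=
    fun k h1 hk n hn => J27207.pp_ex_of HA HAB HB h1 hk n hn
  have HP : ∀ k : ℕ, 3 ≤ k → k ≤ M → ∀ c : Ch (W M), (AS (W M)).Coc (PP M k) k c →
      (AS (E M)).Cob (Sp M k) k (pb (v M) c) :=
    fun k hk hkM c hc => J27208.pstar_zero_of HPE hk hkM hc
  obtain ⟨σ, h1, h2⟩ := sp_top (M := m + 1) (k := m + 1) (by omega) le_rfl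
  refine h2 (J27211.step4_of hm Q ?_ ?_ σ h1 ?_)
  · exact fun w hw => J27210.fib_facts_of hm
      (fun N lam h1 hN hp hn n c hc h => J26892.DL_cob h1 hN lam hp hn hc h) HP Q w hw (hs w hw)
  · exact fun C n Z hZ hp k hk => cob_of_pointwise n hZ hp hk
  · exact J27209.step2_of (by omega) hM (fun u hu => J26893.hemi_acy u hu)
      (fun c hc h => J27207.pp_inj_of HA HAB HB (by omega) hM hc h) Q hfree w₀ hw₀ hpos σ h1

end Pool.Agent.Helper672.Lv
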